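import Pool.Agent.H14.GI.Closed

/-!
MP_adb684_al: systems of lines with products in `a * (roots of unity of order a power of q)`.
-/

set_option autoImplicit false

open Matrix NumberField

namespace Pool.Agent.H14.GI

/-- roots of unity of order a power of `q` are one in characteristic `q` -/
theorem root_eq_one {K : Type} [Field K] (q e : ℕ) (hq : q.Prime) (h0 : (q : K) = 0) (z : K)
    (hz : z ^ q ^ e = 1) : z = 1 := by
  have := Fact.mk hq
  have hch : CharP K q := (CharP.charP_iff_prime_eq_zero hq).2 h0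
  have h : (z - 1) ^ q ^ e = 0 := by
    rw [sub_pow_char_pow, hz, one_pow, sub_self]
  exact sub_eq_zero.1 (pow_eq_zero_iff (pow_ne_zero _ hq.ne_zero) |>.1 h)

section mod
variable {G : Type} [Group G] {K : Type} [Field K] {n : ℕ} {X : Type} [MulAction G X]
  [Fintype X] {P : G →* Matrix (Fin n) (Fin n) K} {v w : X → Fin n → K}

/-- a system whose products have one value on the diagonal and one outside consists of
`n + 1` vectors (in the situation modulo `q`) -/
theorem Sys.card_eq (hS : Sys P v w (fun _ _ => 1)) (hP : Irr P) (hn : 2 ≤ n) (x₀ : X)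
    (hv0 : ∃ x, v x ≠ 0) (hw0 : ∃ x, w x ≠ 0) (A0 A1 : K) (h0 : ∀ x, w x ⬝ᵥ v x = A0)
    (h1 : ∀ x y, x ≠ y → w x ⬝ᵥ v y = A1) : Fintype.card X = n + 1 := by
  classical
  have hne : A0 - A1 ≠ 0 := by
    intro h
    obtain ⟨y, hy⟩ := hv0
    apply hy
    refine (hS.const hP hn x₀ hw0 (v y) A1 fun x => ?_).1
    by_cases hxy : x = y
    · rw [hxy, h0]; exact sub_eq_zero.1 h
    · exact h1 x y hxy
  have hsum : ∑ y, v y = 0 := by
    apply fixed_line hP hn
    intro g
    refine ⟨1, ?_⟩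
    rw [one_smul, Matrix.mulVec_sum, ← Equiv.sum_comp (MulAction.toPerm g) v]
    refine Finset.sum_congr rfl fun y _ => ?_
    rw [hS.hv, one_smul, MulAction.toPerm_apply]
  let L : (X → K) →ₗ[K] (Fin n → K) :=
    { toFun := fun f => ∑ y, f y • v y
      map_add' := by
        intro f g
        simp only [Pi.add_apply, add_smul, Finset.sum_add_distrib]
      map_smul' := by
        intro c f
        simp only [Pi.smul_apply, smul_eq_mul, mul_smul, Finset.smul_sum, RingHom.id_apply] }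
  have hr : LinearMap.range L = ⊤ := by
    rw [eq_top_iff, ← hS.span_top hP hv0, Submodule.span_le]
    rintro _ ⟨x, rfl⟩
    refine ⟨Pi.single x 1, ?_⟩
    show ∑ y, (Pi.single x (1 : K) : X → K) y • v y = v x
    rw [Finset.sum_eq_single x]
    · simp
    · intro y _ hy
      simp [Pi.single_eq_of_ne hy]
    · intro h; exact absurd (Finset.mem_univ _) h
  have hker : LinearMap.ker L = Submodule.span K {fun _ : X => (1 : K)} := by
    apply le_antisymm
    · intro f hf
      rw [LinearMap.mem_ker] at hf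
      have hf' : ∑ y, f y • v y = 0 := hf
      have h2 : ∀ x, (A0 - A1) * f x + A1 * ∑ y, f y = 0 := by
        intro x
        have h3 : w x ⬝ᵥ (∑ y, f y • v y) = 0 := by rw [hf', dotProduct_zero]
        rw [dotProduct_sum] at h3
        have h4 : ∀ y, w x ⬝ᵥ (f y • v y) = (if x = y then (A0 - A1) * f y else 0) +
            A1 * f y := by
          intro y
          rw [dotProduct_smul, smul_eq_mul]
          by_cases hxy : x = y
          · subst hxy
            rw [if_pos rfl, h0]; ring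
          · rw [if_neg hxy, h1 x y hxy]; ring
        rw [Finset.sum_congr rfl (fun y _ => h4 y), Finset.sum_add_distrib, Finset.sum_ite_eq,
          if_pos (Finset.mem_univ _), ← Finset.mul_sum] at h3
        exact h3
      rw [Submodule.mem_span_singleton]
      refine ⟨f x₀, ?_⟩
      funext x
      simp only [Pi.smul_apply, smul_eq_mul, mul_one]
      have h3 : (A0 - A1) * (f x₀ - f x) = 0 := by linear_combination h2 x₀ - h2 x
      exact sub_eq_zero.1 ((mul_eq_zero.1 h3).resolve_left hne)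
    · rw [Submodule.span_singleton_le_iff_mem, LinearMap.mem_ker]
      show ∑ y, (1 : K) • v y = 0
      simp only [one_smul]
      exact hsum
  have h2 := LinearMap.finrank_range_add_finrank_ker L
  rw [hr, finrank_top, Module.finrank_fin_fun, Module.finrank_fintype_fun_eq_card, hker,
    finrank_span_singleton] at h2
  · exact h2.symm
  · intro h
    have := congrFun h x₀
    simp at this

end mod

section
variable {G : Type} [Group G] {F : Type} [Field F] [NumberField F] {n : ℕ} {X : Type}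
  [MulAction G X] [MulAction.IsPretransitive G X] [Fintype X]

/-- products in `a * (roots of unity of order a power of q)` outside the diagonal -/
theorem root_values (ρ : G →* Matrix (Fin n) (Fin n) (𝓞 F)) (σ : F →+* ℂ)
    (hρ : IrredVia (σ.comp (algebraMap (𝓞 F) F)) ρ) (hn : 2 ≤ n)
    (v w : X → Fin n → F) (q e : ℕ) (hq : q.Prime) (μ : G → X → 𝓞 F)
    (hμ : ∀ g x, μ g x ^ q ^ e = 1)
    (hS : Sys (mapRep (algebraMap (𝓞 F) F) ρ) v w (fun g x => algebraMap (𝓞 F) F (μ g x)))
    (x₀ : X) (hv0 : ∃ x, v x ≠ 0) (hw0 : ∃ x, w x ≠ 0) (a : F)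
    (hc : ∀ x y, x ≠ y → ∃ ζ : 𝓞 F, ζ ^ q ^ e = 1 ∧
      w x ⬝ᵥ v y = a * algebraMap (𝓞 F) F ζ)
    (hirr : ∀ p : ℕ, p.Prime → (p = q ∨ p ∣ Fintype.card X) →
      ∃ (k : Type) (_ : Field k) (_ : CharP k p) (φ : 𝓞 F →+* k), IrredVia φ ρ) : False := by
  classical
  have hP : Irr (mapRep σ (mapRep (algebraMap (𝓞 F) F) ρ)) := hρ
  have hqe : q ^ e ≠ 0 := pow_ne_zero _ hq.ne_zero
  have hdiag : ∀ x, w x ⬝ᵥ v x = w x₀ ⬝ᵥ v x₀ := by
    intro x
    obtain ⟨g, rfl⟩ := MulAction.exists_smul_eq G x₀ x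
    have h1 := hS.inv g x₀ x₀
    have h2 : algebraMap (𝓞 F) F (μ g x₀) ≠ 0 := by
      intro h2
      have h3 := congrArg (algebraMap (𝓞 F) F) (hμ g x₀)
      rw [map_pow, h2, map_one, zero_pow hqe] at h3
      exact zero_ne_one h3
    exact mul_left_cancel₀ h2 h1
  -- the number of lines is `n + 1`
  have hm : Fintype.card X = n + 1 := by
    obtain ⟨L, hL, hLq, φ, hI⟩ := hirr q hq (Or.inl rfl)
    obtain ⟨κ, M', v₁, w₁, hκ, hM', hvw, hS₁, hv₁, hw₁⟩ :=
      exists_reduction φ ρ v w μ hS hv0 hw0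
    have hI' : Irr (mapRep φ ρ) := hI
    have hroot : ∀ ζ : 𝓞 F, ζ ^ q ^ e = 1 → φ ζ = 1 := by
      intro ζ hζ
      apply root_eq_one q e hq
      · exact CharP.cast_eq_zero L q
      · rw [← map_pow, hζ, map_one]
    have hS₂ : Sys (mapRep φ ρ) v₁ w₁ (fun _ _ => 1) := by
      have e1 : (fun (g : G) (x : X) => φ (μ g x)) = fun _ _ => 1 := by
        funext g x
        exact hroot _ (hμ g x)
      rwa [e1] at hS₁
    obtain ⟨A1, hA1⟩ : ∃ A1, ∀ x y, x ≠ y → w₁ x ⬝ᵥ v₁ y = A1 := by
      by_cases hX : ∃ x y : X, x ≠ y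
      · obtain ⟨x₁, y₁, hxy₁⟩ := hX
        refine ⟨w₁ x₁ ⬝ᵥ v₁ y₁, fun x y hxy => ?_⟩
        obtain ⟨ζ, hζ, h1⟩ := hc x y hxy
        obtain ⟨ζ₁, hζ₁, h2⟩ := hc x₁ y₁ hxy₁
        have h3 : M' x y * ζ₁ = M' x₁ y₁ * ζ := by
          apply alg_inj
          rw [map_mul, map_mul, hM', hM', h1, h2]
          ring
        have h4 := congrArg φ h3
        rw [map_mul, map_mul, hroot ζ hζ, hroot ζ₁ hζ₁, mul_one, mul_one] at h4
        rw [hvw, hvw, h4]
      · exact ⟨0, fun x y hxy => absurd ⟨x, y, hxy⟩ hX⟩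
    refine hS₂.card_eq hI' hn x₀ hv₁ hw₁ (w₁ x₀ ⬝ᵥ v₁ x₀) A1 (fun x => ?_) hA1
    have h3 : M' x x = M' x₀ x₀ := by
      apply alg_inj
      rw [hM', hM', hdiag]
    rw [hvw, hvw, h3]
  -- the matrix `T`
  obtain ⟨c, hsq, htr, hvs⟩ := hS.square σ hP hn
  have htr' : (n : F) * c = (n + 1) * (w x₀ ⬝ᵥ v x₀) := by
    rw [htr, Finset.sum_congr rfl (fun x _ => hdiag x), Finset.sum_const, Finset.card_univ, hm,
      nsmul_eq_mul]
    push_cast
    ring
  set d : F := c - w x₀ ⬝ᵥ v x₀ with hd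
  have hcd : c = (n + 1) * d := by
    rw [hd]; linear_combination -htr'
  let T : X → X → F := fun x y => if x = y then d else -(w x ⬝ᵥ v y)
  have hT : ∀ x y, T x y = (if x = y then c else 0) - w x ⬝ᵥ v y := by
    intro x y
    by_cases hxy : x = y
    · simp only [T, if_pos hxy, hd]
      rw [hxy, hdiag y]
    · simp only [T, if_neg hxy, zero_sub]
  have hTk : ∀ z, ∑ y, T y z • v y = 0 := by
    intro z
    have h1 : ∀ y, T y z • v y = (if y = z then c • v y else 0) - (w y ⬝ᵥ v z) • v y := by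
      intro y
      rw [hT]
      by_cases hyz : y = z
      · rw [if_pos hyz, if_pos hyz, sub_smul]
      · rw [if_neg hyz, if_neg hyz, zero_sub, zero_sub, neg_smul]
    rw [Finset.sum_congr rfl (fun y _ => h1 y), Finset.sum_sub_distrib, hvs,
      Finset.sum_ite_eq' Finset.univ z, if_pos (Finset.mem_univ _), sub_self]
  have hrk : ∀ x z y t, T x z * T y t = T y z * T x t := by
    intro x z y t
    have hS₃ := hS.map σ (mapRep σ (mapRep (algebraMap (𝓞 F) F) ρ)) (fun g => rfl)
    have hσ : ∀ z, ∑ y, σ (T y z) • (fun i => σ (v y i)) = 0 := by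
      intro z
      funext i
      have h1 := congrArg σ (congrFun (hTk z) i)
      simp only [Finset.sum_apply, Pi.smul_apply, smul_eq_mul, map_sum, map_mul, Pi.zero_apply,
        map_zero] at h1 ⊢
      exact h1
    have h1 := hS₃.relations hP (by
      obtain ⟨x, hx⟩ := hv0
      refine ⟨x, fun h => hx ?_⟩
      funext i
      apply σ.injective
      rw [Pi.zero_apply, map_zero]
      exact congrFun h i) hm (fun y => σ (T y z)) (fun y => σ (T y t)) (hσ z) (hσ t) x y
    apply σ.injective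
    rw [map_mul, map_mul]
    exact h1
  -- modulo a prime over the number of lines
  obtain ⟨L, hL, hLp, φ, hI⟩ := hirr (n + 1).minFac (Nat.minFac_prime (by omega))
    (Or.inr (by rw [hm]; exact Nat.minFac_dvd _))
  have hmp : φ ((n + 1 : ℕ) : 𝓞 F) = 0 := by
    rw [map_natCast]
    exact (CharP.cast_eq_zero_iff L (n + 1).minFac (n + 1)).2 (Nat.minFac_dvd _)
  obtain ⟨κ, M', v₁, w₁, hκ, hM', hvw, hS₁, hv₁, hw₁⟩ :=
    exists_reduction φ ρ v w μ hS hv0 hw0
  have hI' : Irr (mapRep φ ρ) := hI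
  obtain ⟨y₀, hy₀⟩ : ∃ y₀, x₀ ≠ y₀ := by
    have : Nontrivial X := Fintype.one_lt_card_iff_nontrivial.1 (by omega)
    obtain ⟨y, hy⟩ := exists_ne x₀
    exact ⟨y, hy.symm⟩
  obtain ⟨d', hd'⟩ : ∃ d' : 𝓞 F, algebraMap (𝓞 F) F d' = κ * d := by
    have h1 : (κ * d) ^ 2 = algebraMap (𝓞 F) F (M' x₀ y₀ * M' y₀ x₀) := by
      have h2 := hrk x₀ x₀ y₀ y₀
      simp only [T, if_true, if_neg hy₀, if_neg (Ne.symm hy₀)] at h2
      rw [map_mul, hM', hM']
      linear_combination κ ^ 2 * h2
    have h2 : IsIntegral ℤ (κ * d) := by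
      apply IsIntegral.of_pow (n := 2) (by norm_num)
      rw [h1]
      exact RingOfIntegers.isIntegral_coe _
    exact ⟨⟨κ * d, h2⟩, rfl⟩
  have hrel : ∀ x y, w₁ x ⬝ᵥ v₁ y =
      - φ (if x = y then d' else - M' x y) := by
    intro x y
    rw [hvw]
    by_cases hxy : x = y
    · subst hxy
      rw [if_pos rfl]
      have h1 : M' x x = ((n + 1 : ℕ) : 𝓞 F) * d' - d' := by
        apply alg_inj
        rw [hM', map_sub, map_mul, hd', hdiag, map_natCast]
        push_cast
        linear_combination κ * hcd - κ * hd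
      rw [h1, map_sub, map_mul, hmp, zero_mul, zero_sub]
    · rw [if_neg hxy, map_neg, neg_neg]
  have hTint : ∀ x y, algebraMap (𝓞 F) F (if x = y then d' else - M' x y) = κ * T x y := by
    intro x y
    by_cases hxy : x = y
    · simp only [T, if_pos hxy, hd']
    · simp only [T, if_neg hxy, map_neg, hM']
      ring
  refine hS₁.not_rank_one hI' hn hw₁ hv₁ (fun x z y t => ?_)
  rw [hrel, hrel, hrel, hrel, neg_mul_neg, neg_mul_neg, ← map_mul, ← map_mul]
  congr 1
  apply alg_inj
  rw [map_mul, map_mul, hTint, hTint, hTint, hTint]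
  linear_combination κ ^ 2 * hrk x y z t

end

end Pool.Agent.H14.GI
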