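import Pool.Agent.H14.GI.PartA
import Pool.Agent.H14.GI.PartB

/-!
MP_adb684_al: systems from (semi-)invariant vectors of a subgroup.
-/

set_option autoImplicit false

open Matrix NumberField

namespace Pool.Agent.H14.GI

section coset
variable {G : Type} [Group G] {K : Type} [CommRing K] {n : ℕ} (H : Subgroup G)

theorem out_mem (g : G) (x : G ⧸ H) : (g • x).out⁻¹ * (g * x.out) ∈ H := by
  rw [← QuotientGroup.eq, QuotientGroup.out_eq']
  have h : ((g * x.out : G) : G ⧸ H) = g • ((x.out : G) : G ⧸ H) := rfl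
  rw [h, QuotientGroup.out_eq']

theorem out_not_mem {x y : G ⧸ H} (hxy : x ≠ y) : x.out⁻¹ * y.out ∉ H := by
  rw [← QuotientGroup.eq, QuotientGroup.out_eq', QuotientGroup.out_eq']
  exact hxy

/-- the system of a pair of semi-invariant vectors -/
theorem sys_of_pair (P : G →* Matrix (Fin n) (Fin n) K) (v₀ w₀ : Fin n → K) (l : H → K)
    (hv : ∀ h : H, P h *ᵥ v₀ = l h • v₀) (hw : ∀ h : H, w₀ ᵥ* P h = l h • w₀) :
    Sys (X := G ⧸ H) P (fun x => P x.out *ᵥ v₀) (fun x => w₀ ᵥ* P x.out⁻¹)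
      (fun g x => l ⟨(g • x).out⁻¹ * (g * x.out), out_mem H g x⟩) := by
  apply Sys.of_vec
  · intro g x
    rw [Matrix.mulVec_mulVec, ← map_mul]
    have h1 : g * x.out = (g • x).out * ((g • x).out⁻¹ * (g * x.out)) := by group
    conv_lhs => rw [h1]
    rw [map_mul, ← Matrix.mulVec_mulVec, hv ⟨_, out_mem H g x⟩, Matrix.mulVec_smul]
  · intro g x
    rw [Matrix.vecMul_vecMul, ← map_mul]
    have h1 : (g • x).out⁻¹ * g = ((g • x).out⁻¹ * (g * x.out)) * x.out⁻¹ := by group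
    conv_lhs => rw [h1]
    rw [map_mul, ← Matrix.vecMul_vecMul, hw ⟨_, out_mem H g x⟩, Matrix.smul_vecMul]

theorem pair_apply (P : G →* Matrix (Fin n) (Fin n) K) (v₀ w₀ : Fin n → K) (x y : G ⧸ H) :
    (w₀ ᵥ* P x.out⁻¹) ⬝ᵥ (P y.out *ᵥ v₀) = w₀ ⬝ᵥ (P (x.out⁻¹ * y.out) *ᵥ v₀) := by
  rw [← Matrix.dotProduct_mulVec, Matrix.mulVec_mulVec, ← map_mul]

end coset

section

variable {G : Type} [Group G] [Finite G] {F : Type} [Field F] {n : ℕ}

/-- a semi-invariant vector over the complex numbers gives a pair of semi-invariant vectors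
over the number field -/
theorem exists_pair [CharZero F] (P : G →* Matrix (Fin n) (Fin n) F) (σ : F →+* ℂ)
    (H : Subgroup G) (l : H →* F) (v : Fin n → ℂ) (hv0 : v ≠ 0)
    (hv : ∀ h : H, (P h).map σ *ᵥ v = σ (l h) • v) :
    ∃ v₀ w₀ : Fin n → F, (∀ h : H, P h *ᵥ v₀ = l h • v₀) ∧ (∀ h : H, w₀ ᵥ* P h = l h • w₀) ∧
      w₀ ⬝ᵥ v₀ ≠ 0 := by
  classical
  have := Fintype.ofFinite H
  obtain ⟨i₀, hi₀⟩ := Function.ne_iff.1 hv0
  let := σ.toAlgebra
  have hsmul : ∀ (a : F) (z : ℂ), a • z = σ a * z := fun a z => Algebra.smul_def a z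
  obtain ⟨φ, hφ⟩ : ∃ φ : Module.Dual F ℂ, φ (v i₀) ≠ 0 := by
    by_contra hcon
    push Not at hcon
    exact hi₀ ((Module.forall_dual_apply_eq_zero_iff F (v i₀)).1 hcon)
  set v₀ : Fin n → F := fun i => φ (v i) with hv₀
  have h1 : ∀ h : H, P h *ᵥ v₀ = l h • v₀ := by
    intro h
    funext i
    have h2 := congrArg φ (congrFun (hv h) i)
    simp only [Matrix.mulVec, dotProduct, Matrix.map_apply, Pi.smul_apply, smul_eq_mul,
      ← hsmul, map_sum, map_smul] at h2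
    simp only [Matrix.mulVec, dotProduct, Pi.smul_apply, smul_eq_mul, hv₀]
    exact h2
  have hl : ∀ h : H, l h * l h⁻¹ = 1 := fun h => by rw [← map_mul, mul_inv_cancel, map_one]
  refine ⟨v₀, ∑ h : H, l h⁻¹ • (Pi.single i₀ (1 : F) ᵥ* P h), h1, ?_, ?_⟩
  · intro h
    rw [Matrix.sum_vecMul, Finset.smul_sum, ← Equiv.sum_comp (Equiv.mulRight h)
      (fun h' => l h • l h'⁻¹ • (Pi.single i₀ (1 : F) ᵥ* P h'))]
    refine Finset.sum_congr rfl fun h' _ => ?_
    show (l h'⁻¹ • (Pi.single i₀ (1 : F) ᵥ* P h')) ᵥ* P h =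
      l h • l (h' * h)⁻¹ • (Pi.single i₀ (1 : F) ᵥ* P (h' * h : H))
    have e2 : P (h' * h : H) = P h' * P h := by rw [Subgroup.coe_mul, map_mul]
    rw [Matrix.smul_vecMul, Matrix.vecMul_vecMul, e2, smul_smul, _root_.mul_inv_rev, map_mul l,
      ← mul_assoc, hl, one_mul]
  · rw [sum_dotProduct]
    have h2 : ∀ h : H, (l h⁻¹ • (Pi.single i₀ (1 : F) ᵥ* P h)) ⬝ᵥ v₀ = v₀ i₀ := by
      intro h
      rw [smul_dotProduct, ← Matrix.dotProduct_mulVec, h1, dotProduct_smul, smul_smul, mul_comm,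
        hl, one_smul, single_dotProduct, one_mul]
    rw [Finset.sum_congr rfl (fun h _ => h2 h), Finset.sum_const, Finset.card_univ, nsmul_eq_mul]
    exact mul_ne_zero (by exact_mod_cast Fintype.card_ne_zero) hφ

end

end Pool.Agent.H14.GI
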