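import Pool.Agent.H14.GI.Basic

/-!
MP_adb684_al: two facts on algebraic integers, and the row sum bound for eigenvalues.
-/

set_option autoImplicit false

open Matrix NumberField

namespace Pool.Agent.H14.GI

section
variable {F : Type} [Field F]

/-- an element which is integral at every maximal ideal is integral -/
theorem integral_of_local (b : F)
    (h : ∀ 𝔭 : Ideal (𝓞 F), 𝔭.IsMaximal → ∃ d e : 𝓞 F, d ∉ 𝔭 ∧
      algebraMap (𝓞 F) F d * b = algebraMap (𝓞 F) F e) :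
    ∃ e : 𝓞 F, algebraMap (𝓞 F) F e = b := by
  let I : Ideal (𝓞 F) :=
    { carrier := {d | ∃ e : 𝓞 F, algebraMap (𝓞 F) F d * b = algebraMap (𝓞 F) F e}
      add_mem' := by
        rintro d d' ⟨e, he⟩ ⟨e', he'⟩
        exact ⟨e + e', by rw [map_add, add_mul, he, he', map_add]⟩
      zero_mem' := ⟨0, by simp⟩
      smul_mem' := by
        rintro c d ⟨e, he⟩
        exact ⟨c * e, by rw [smul_eq_mul, map_mul, mul_assoc, he, map_mul]⟩ }
  by_cases hI : I = ⊤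
  · have h1 : (1 : 𝓞 F) ∈ I := by rw [hI]; trivial
    obtain ⟨e, he⟩ := h1
    exact ⟨e, by rw [← he, map_one, one_mul]⟩
  · exfalso
    obtain ⟨𝔭, hp, hIp⟩ := Ideal.exists_le_maximal I hI
    obtain ⟨d, e, hd, he⟩ := h 𝔭 hp
    exact hd (hIp ⟨e, he⟩)

end

section
variable {F : Type} [Field F] [NumberField F]

/-- an algebraic integer all of whose conjugates are smaller than one is zero -/
theorem eq_zero_of_small (a : 𝓞 F) (h : ∀ τ : F →+* ℂ, ‖τ (algebraMap (𝓞 F) F a)‖ < 1) :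
    a = 0 := by
  by_contra ha
  have h0 : algebraMap (𝓞 F) F a ≠ 0 := by
    intro h0
    apply ha
    exact FaithfulSMul.algebraMap_injective (𝓞 F) F (by rw [h0, map_zero])
  have h1 : algebraMap ℚ ℂ (Algebra.norm ℚ (algebraMap (𝓞 F) F a)) =
      ∏ σ : F →ₐ[ℚ] ℂ, σ (algebraMap (𝓞 F) F a) := Algebra.norm_eq_prod_embeddings ℚ ℂ _
  have h2 : ‖∏ σ : F →ₐ[ℚ] ℂ, σ (algebraMap (𝓞 F) F a)‖ < 1 := by
    rw [norm_prod]
    have hne : (Finset.univ : Finset (F →ₐ[ℚ] ℂ)).Nonempty := by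
      have : Nonempty (F →ₐ[ℚ] ℂ) := ⟨IsAlgClosed.lift⟩
      exact Finset.univ_nonempty
    calc ∏ σ : F →ₐ[ℚ] ℂ, ‖σ (algebraMap (𝓞 F) F a)‖ < ∏ σ : F →ₐ[ℚ] ℂ, (1 : ℝ) := by
          apply Finset.prod_lt_prod_of_nonempty _ (fun σ _ => h σ.toRingHom) hne
          intro σ _
          rw [norm_pos_iff]
          intro h3
          exact h0 (σ.toRingHom.injective (by
            rw [map_zero]; exact h3))
      _ = 1 := by simp
  rw [← h1] at h2
  have h3 : (Algebra.norm ℚ (algebraMap (𝓞 F) F a)) =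
      ((Algebra.norm ℤ a : ℤ) : ℚ) := (Algebra.coe_norm_int a).symm
  rw [h3] at h2
  simp only [eq_ratCast, Rat.cast_intCast, Complex.norm_intCast] at h2
  have h4 : |(Algebra.norm ℤ a)| < 1 := by exact_mod_cast h2
  have h5 : Algebra.norm ℤ a = 0 := Int.abs_lt_one_iff.1 h4
  exact ha (Algebra.norm_eq_zero_iff.1 h5)

end

/-- an eigenvalue of a matrix with nonnegative entries is bounded by the row sums -/
theorem row_bound {X : Type} [Fintype X] (a : X → X → ℝ) (ha : ∀ x y, 0 ≤ a x y) (k : ℝ)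
    (hk : ∀ x, ∑ y, a x y = k) (f : X → ℂ) (hf : ∃ x, f x ≠ 0) (s : ℂ)
    (h : ∀ x, ∑ y, (a x y : ℂ) * f y = s * f x) : ‖s‖ ≤ k := by
  obtain ⟨x₁, hx₁⟩ := hf
  obtain ⟨x₀, -, hx₀⟩ := Finset.exists_max_image (Finset.univ : Finset X) (fun x => ‖f x‖)
    ⟨x₁, Finset.mem_univ _⟩
  have hpos : 0 < ‖f x₀‖ := lt_of_lt_of_le (norm_pos_iff.2 hx₁) (hx₀ x₁ (Finset.mem_univ _))
  have h1 : ‖s‖ * ‖f x₀‖ ≤ k * ‖f x₀‖ := by
    calc ‖s‖ * ‖f x₀‖ = ‖∑ y, (a x₀ y : ℂ) * f y‖ := by rw [h, norm_mul]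
      _ ≤ ∑ y, ‖(a x₀ y : ℂ) * f y‖ := norm_sum_le _ _
      _ ≤ ∑ y, a x₀ y * ‖f x₀‖ := by
          apply Finset.sum_le_sum
          intro y _
          rw [norm_mul, Complex.norm_real, Real.norm_of_nonneg (ha _ _)]
          exact mul_le_mul_of_nonneg_left (hx₀ y (Finset.mem_univ _)) (ha _ _)
      _ = k * ‖f x₀‖ := by rw [← Finset.sum_mul, hk]
  exact le_of_mul_le_mul_right h1 hpos

end Pool.Agent.H14.GI
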