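import Mathlib

/-!
MP_adb684_al: irreducible matrix representations and equivariant systems of vectors.
-/

set_option autoImplicit false

open Matrix

namespace Pool.Agent.H14.GI

/-- The matrix representation `ρ` over the ring `R` becomes irreducible over `K` after applying
`φ : R → K` to the matrix entries: `K ^ n` has no invariant subspace except `0` and `K ^ n`. -/
def IrredVia {G : Type} [Group G] {R K : Type} [CommRing R] [CommRing K] {n : ℕ} (φ : R →+* K)
    (ρ : G →* Matrix (Fin n) (Fin n) R) : Prop :=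
  ∀ U : Submodule K (Fin n → K), (∀ g : G, ∀ u ∈ U, (ρ g).map φ *ᵥ u ∈ U) → U = ⊥ ∨ U = ⊤

/-- the representation over `K` -/
def mapRep {G : Type} [Group G] {R K : Type} [CommRing R] [CommRing K] {n : ℕ} (φ : R →+* K)
    (ρ : G →* Matrix (Fin n) (Fin n) R) : G →* Matrix (Fin n) (Fin n) K :=
  (φ.mapMatrix : Matrix (Fin n) (Fin n) R →+* Matrix (Fin n) (Fin n) K).toMonoidHom.comp ρ

def Irr {G : Type} [Group G] {K : Type} [CommRing K] {n : ℕ}
    (P : G →* Matrix (Fin n) (Fin n) K) : Prop :=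
  ∀ U : Submodule K (Fin n → K), (∀ g : G, ∀ u ∈ U, P g *ᵥ u ∈ U) → U = ⊥ ∨ U = ⊤

theorem irr_mapRep {G : Type} [Group G] {R K : Type} [CommRing R] [CommRing K] {n : ℕ}
    (φ : R →+* K) (ρ : G →* Matrix (Fin n) (Fin n) R) :
    Irr (mapRep φ ρ) ↔ IrredVia φ ρ := Iff.rfl

/-- families of vectors and of covectors, permuted by the group up to the factors `μ` -/
structure Sys {G : Type} [Group G] {K : Type} [CommRing K] {n : ℕ} {X : Type} [MulAction G X]
    (P : G →* Matrix (Fin n) (Fin n) K) (v w : X → Fin n → K) (μ : G → X → K) : Prop where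
  hv : ∀ g x, P g *ᵥ v x = μ g x • v (g • x)
  hw : ∀ g x u, w (g • x) ⬝ᵥ (P g *ᵥ u) = μ g x * (w x ⬝ᵥ u)

section field

variable {G : Type} [Group G] {K : Type} [Field K] {n : ℕ} {X : Type} [MulAction G X]
  {P : G →* Matrix (Fin n) (Fin n) K} {v w : X → Fin n → K} {μ : G → X → K}

theorem fixed_line (hP : Irr P) (hn : 2 ≤ n) (u : Fin n → K)
    (hu : ∀ g, ∃ c : K, P g *ᵥ u = c • u) : u = 0 := by
  have h := hP (Submodule.span K {u}) (by
    intro g a ha
    obtain ⟨c, rfl⟩ := Submodule.mem_span_singleton.1 ha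
    obtain ⟨d, hd⟩ := hu g
    rw [Matrix.mulVec_smul, hd]
    exact Submodule.smul_mem _ _ (Submodule.smul_mem _ _ (Submodule.mem_span_singleton_self u)))
  rcases h with h | h
  · exact Submodule.span_singleton_eq_bot.1 h
  · exfalso
    have h1 : Module.finrank K (Submodule.span K {u}) ≤ 1 := by
      have := finrank_span_le_card (R := K) ({u} : Set (Fin n → K))
      simpa using this
    rw [h, finrank_top, Module.finrank_fin_fun] at h1
    omega

theorem Sys.sep (hS : Sys P v w μ) (hP : Irr P) (hw0 : ∃ x, w x ≠ 0) (a : Fin n → K)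
    (ha : ∀ x, w x ⬝ᵥ a = 0) : a = 0 := by
  let U : Submodule K (Fin n → K) :=
    { carrier := {a | ∀ x, w x ⬝ᵥ a = 0}
      add_mem' := by
        intro a b ha hb x
        rw [dotProduct_add, ha x, hb x, add_zero]
      zero_mem' := fun x => dotProduct_zero _
      smul_mem' := by
        intro c a ha x
        rw [dotProduct_smul, ha x, smul_zero] }
  have h := hP U (by
    intro g a ha x
    have h1 := hS.hw g (g⁻¹ • x) a
    rw [smul_inv_smul] at h1
    rw [h1, ha, mul_zero])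
  rcases h with h | h
  · have : a ∈ U := ha
    rw [h] at this
    simpa using this
  · exfalso
    obtain ⟨x, hx⟩ := hw0
    apply hx
    have h2 : ∀ b : Fin n → K, w x ⬝ᵥ b = 0 := by
      intro b
      have : b ∈ U := by rw [h]; trivial
      exact this x
    funext i
    have := h2 (Pi.single i 1)
    simpa using this

theorem Sys.const (hS : Sys P v w (fun _ _ => 1)) (hP : Irr P) (hn : 2 ≤ n) (x₀ : X)
    (hw0 : ∃ x, w x ≠ 0) (a : Fin n → K) (β : K) (ha : ∀ x, w x ⬝ᵥ a = β) : a = 0 ∧ β = 0 := by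
  have h1 : a = 0 := by
    apply fixed_line hP hn
    intro g
    refine ⟨1, ?_⟩
    rw [one_smul]
    have h2 : P g *ᵥ a - a = 0 := by
      apply hS.sep hP hw0
      intro x
      rw [dotProduct_sub, ha x]
      have h3 := hS.hw g (g⁻¹ • x) a
      rw [smul_inv_smul, one_mul, ha] at h3
      rw [h3, sub_self]
    exact sub_eq_zero.1 h2
  refine ⟨h1, ?_⟩
  rw [← ha x₀, h1, dotProduct_zero]

/-- the matrix `w x ⬝ᵥ v y` does not have rank one -/
theorem Sys.not_rank_one (hS : Sys P v w μ) (hP : Irr P) (hn : 2 ≤ n)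
    (hw0 : ∃ x, w x ≠ 0) (hv0 : ∃ x, v x ≠ 0)
    (h : ∀ x z y t, (w x ⬝ᵥ v y) * (w z ⬝ᵥ v t) = (w x ⬝ᵥ v t) * (w z ⬝ᵥ v y)) : False := by
  obtain ⟨y₀, hy₀⟩ := hv0
  obtain ⟨x₀, hx₀⟩ : ∃ x₀, w x₀ ⬝ᵥ v y₀ ≠ 0 := by
    by_contra hc
    push Not at hc
    exact hy₀ (hS.sep hP hw0 _ hc)
  apply hy₀
  apply fixed_line hP hn
  intro g
  have h1 : (w x₀ ⬝ᵥ v y₀) • v (g • y₀) - (w x₀ ⬝ᵥ v (g • y₀)) • v y₀ = 0 := by
    apply hS.sep hP hw0
    intro z
    rw [dotProduct_sub, dotProduct_smul, dotProduct_smul, smul_eq_mul, smul_eq_mul,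
      h x₀ z y₀ (g • y₀), sub_self]
  refine ⟨μ g y₀ * ((w x₀ ⬝ᵥ v y₀)⁻¹ * (w x₀ ⬝ᵥ v (g • y₀))), ?_⟩
  rw [hS.hv, mul_smul, mul_smul, ← sub_eq_zero.1 h1, smul_smul (w x₀ ⬝ᵥ v y₀)⁻¹,
    inv_mul_cancel₀ hx₀, one_smul]

theorem Sys.span_top (hS : Sys P v w μ) (hP : Irr P) (hv0 : ∃ x, v x ≠ 0) :
    Submodule.span K (Set.range v) = ⊤ := by
  have h := hP (Submodule.span K (Set.range v)) (by
    intro g u hu
    induction hu using Submodule.span_induction with
    | mem u hu =>
      obtain ⟨x, rfl⟩ := hu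
      rw [hS.hv]
      exact Submodule.smul_mem _ _ (Submodule.subset_span ⟨_, rfl⟩)
    | zero => rw [Matrix.mulVec_zero]; exact Submodule.zero_mem _
    | add a b _ _ ha hb => rw [Matrix.mulVec_add]; exact Submodule.add_mem _ ha hb
    | smul c a _ ha => rw [Matrix.mulVec_smul]; exact Submodule.smul_mem _ _ ha)
  rcases h with h | h
  · exfalso
    obtain ⟨x, hx⟩ := hv0
    have : v x ∈ Submodule.span K (Set.range v) := Submodule.subset_span ⟨x, rfl⟩
    rw [h] at this
    exact hx (by simpa using this)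
  · exact h

/-- an invariant functional is zero -/
theorem fixed_functional (hP : Irr P) (hn : 2 ≤ n) (f : Fin n → K)
    (hf : ∀ g u, f ⬝ᵥ (P g *ᵥ u) = f ⬝ᵥ u) : f = 0 := by
  by_contra hf0
  have hS : Sys (X := Unit) P (fun _ => 0) (fun _ => f) (fun _ _ => 1) :=
    ⟨fun g x => by simp, fun g x u => by rw [hf, one_mul]⟩
  have h := fun a (ha : f ⬝ᵥ a = 0) => hS.sep hP ⟨(), hf0⟩ a (fun _ => ha)
  -- the kernel of a functional on a space of dimension at least two is not zero
  obtain ⟨i, hi⟩ := Function.ne_iff.1 hf0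
  obtain ⟨j, hj⟩ : ∃ j : Fin n, j ≠ i := by
    have : Nontrivial (Fin n) := Fin.nontrivial_iff_two_le.2 hn
    exact exists_ne i
  have h1 := h (Pi.single i (f j) - Pi.single j (f i)) (by
    rw [dotProduct_sub, dotProduct_single, dotProduct_single, mul_comm, sub_self])
  have h2 := congrFun h1 j
  simp only [Pi.sub_apply, Pi.single_eq_same, Pi.single_eq_of_ne hj, Pi.zero_apply,
    zero_sub, neg_eq_zero] at h2
  exact hi h2

end field

/-- Schur's lemma -/
theorem schur {G : Type} [Group G] {n : ℕ} {P : G →* Matrix (Fin n) (Fin n) ℂ} (hP : Irr P)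
    (hn : 2 ≤ n) (B : Matrix (Fin n) (Fin n) ℂ) (hB : ∀ g, P g * B = B * P g) :
    ∃ c : ℂ, B = c • (1 : Matrix (Fin n) (Fin n) ℂ) := by
  have hne : Nonempty (Fin n) := ⟨⟨0, by omega⟩⟩
  have : Nontrivial (Fin n → ℂ) := Function.nontrivial
  obtain ⟨c, hc⟩ := Module.End.exists_eigenvalue (Matrix.toLin' B)
  refine ⟨c, ?_⟩
  have h := hP (Module.End.eigenspace (Matrix.toLin' B) c) (by
    intro g u hu
    rw [Module.End.mem_eigenspace_iff, Matrix.toLin'_apply] at hu ⊢
    rw [Matrix.mulVec_mulVec, ← hB, ← Matrix.mulVec_mulVec, hu, Matrix.mulVec_smul])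
  rcases h with h | h
  · exact absurd h hc
  · apply Matrix.toLin'.injective
    apply LinearMap.ext
    intro u
    have hu : u ∈ Module.End.eigenspace (Matrix.toLin' B) c := by rw [h]; trivial
    rw [Module.End.mem_eigenspace_iff] at hu
    rw [hu, Matrix.toLin'_apply, Matrix.smul_mulVec, Matrix.one_mulVec]

end Pool.Agent.H14.GI
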