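import Pool.Agent.H14.GI.Local

/-!
MP_adb684_al: passage from vectors over the complex numbers to vectors over a number field, and
extension of homomorphisms from a ring of integers to an algebraically closed field.
-/

set_option autoImplicit false

open Matrix NumberField

namespace Pool.Agent.H14.GI

/-- a homomorphism to an algebraically closed field extends to the integers of a larger
number field -/
theorem extend_hom {F E : Type} [Field F] [NumberField F] [Field E] [NumberField E]
    (ι : F →+* E) {k : Type} [Field k] [IsAlgClosed k] (φ : 𝓞 F →+* k) :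
    ∃ φ' : 𝓞 E →+* k, φ'.comp (RingOfIntegers.mapRingHom ι) = φ := by
  let ι₀ : 𝓞 F →+* 𝓞 E := RingOfIntegers.mapRingHom ι
  have hinj : Function.Injective ι₀ := by
    intro a b h
    apply alg_inj
    apply ι.injective
    have h1 := congrArg (algebraMap (𝓞 E) E) h
    exact h1
  let := ι₀.toAlgebra
  have hint : Algebra.IsIntegral (𝓞 F) (𝓞 E) := by
    constructor
    intro x
    exact IsIntegral.tower_top (RingOfIntegers.isIntegral x)
  have hker : (RingHom.ker φ).IsPrime := RingHom.ker_isPrime φ
  obtain ⟨𝔓, -, hP, hPk⟩ := Ideal.exists_ideal_over_prime_of_isIntegral (RingHom.ker φ)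
    (⊥ : Ideal (𝓞 E)) (by
      intro x hx
      have h1 : ι₀ x = 0 := hx
      have h2 : x = 0 := hinj (by rw [h1, map_zero])
      rw [h2]
      exact Ideal.zero_mem _)
  have hlies : 𝔓.LiesOver (RingHom.ker φ) := ⟨hPk.symm⟩
  let φ₀ : 𝓞 F ⧸ RingHom.ker φ →+* k := RingHom.kerLift φ
  let := φ₀.toAlgebra
  have hf1 : FaithfulSMul (𝓞 F ⧸ RingHom.ker φ) k :=
    (faithfulSMul_iff_algebraMap_injective _ _).2 (RingHom.kerLift_injective φ)
  let f : (𝓞 E ⧸ 𝔓) →ₐ[𝓞 F ⧸ RingHom.ker φ] k := IsAlgClosed.lift
  refine ⟨f.toRingHom.comp (Ideal.Quotient.mk 𝔓), ?_⟩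
  ext x
  have h1 : f (algebraMap (𝓞 F ⧸ RingHom.ker φ) (𝓞 E ⧸ 𝔓) (Ideal.Quotient.mk _ x)) =
      algebraMap (𝓞 F ⧸ RingHom.ker φ) k (Ideal.Quotient.mk _ x) := f.commutes _
  exact h1

theorem numberField_of_finite (F E : Type) [Field F] [NumberField F] [Field E] [Algebra F E]
    [Module.Finite F E] : NumberField E := by
  have hch : CharZero E := charZero_of_injective_algebraMap (algebraMap F E).injective
  exact { to_charZero := hch, to_finiteDimensional := Module.Finite.trans F E }

/-- finitely many complex numbers lie in a ring with a homomorphism to a number field -/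
theorem descent {F : Type} [Field F] [NumberField F] (σ : F →+* ℂ) (s : Set ℂ)
    (hs : s.Finite) :
    ∃ (E : Type) (_ : Field E) (_ : NumberField E) (τ : E →+* ℂ)
      (R : Type) (_ : CommRing R) (j : R →+* ℂ) (σR : F →+* R) (ψ : R →+* E),
      Function.Injective j ∧ j.comp σR = σ ∧ τ.comp (ψ.comp σR) = σ ∧
        ∀ x ∈ s, ∃ y, j y = x := by
  let := σ.toAlgebra
  let R := Algebra.adjoin F s
  have hR : Algebra.FiniteType F R :=
    (Subalgebra.fg_iff_finiteType _).1 ⟨hs.toFinset, by rw [Set.Finite.coe_toFinset]⟩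
  obtain ⟨E, hE, π, hπ⟩ : ∃ (E : Type) (_ : Field E) (π : R →+* E), Function.Surjective π := by
    obtain ⟨𝔪, h𝔪⟩ := Ideal.exists_maximal R
    exact ⟨R ⧸ 𝔪, Ideal.Quotient.field 𝔪, Ideal.Quotient.mk 𝔪, Ideal.Quotient.mk_surjective⟩
  let := (π.comp (algebraMap F R)).toAlgebra
  let πa : R →ₐ[F] E := { π with commutes' := fun _ => rfl }
  have hE : Algebra.FiniteType F E := Algebra.FiniteType.of_surjective πa hπ
  have hfin : Module.Finite F E := finite_of_finite_type_of_isJacobsonRing F E
  have hNF : NumberField E := numberField_of_finite F E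
  let τ : E →ₐ[F] ℂ := IsAlgClosed.lift
  refine ⟨E, inferInstance, hNF, τ.toRingHom, R, inferInstance, R.val.toRingHom,
    algebraMap F R, π, Subtype.val_injective, rfl, ?_, ?_⟩
  · ext x
    exact τ.commutes x
  · intro x hx
    exact ⟨⟨x, Algebra.subset_adjoin hx⟩, rfl⟩

end Pool.Agent.H14.GI
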