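import Pool.Agent.H14.GI.Basic

/-!
MP_adb684_al: reduction of an equivariant system along a homomorphism to a field.
-/

set_option autoImplicit false

open Matrix NumberField

namespace Pool.Agent.H14.GI

section
variable {F : Type} [Field F]

theorem alg_inj {a b : 𝓞 F} (h : algebraMap (𝓞 F) F a = algebraMap (𝓞 F) F b) : a = b :=
  FaithfulSMul.algebraMap_injective (𝓞 F) F h

theorem coe_dot {n : ℕ} (a b : Fin n → 𝓞 F) : algebraMap (𝓞 F) F (a ⬝ᵥ b) =
    (fun i => algebraMap (𝓞 F) F (a i)) ⬝ᵥ (fun i => algebraMap (𝓞 F) F (b i)) := by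
  simp only [dotProduct, map_sum, map_mul]

theorem coe_mulVec {n : ℕ} (A : Matrix (Fin n) (Fin n) (𝓞 F)) (b : Fin n → 𝓞 F) (i : Fin n) :
    algebraMap (𝓞 F) F ((A *ᵥ b) i) =
      (A.map (algebraMap (𝓞 F) F) *ᵥ (fun i => algebraMap (𝓞 F) F (b i))) i := by
  simp only [Matrix.mulVec, dotProduct, map_sum, map_mul, Matrix.map_apply]

end

variable {F : Type} [Field F] [NumberField F]

/-- a finite family of vectors, not all zero, has a multiple which is integral and not zero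
under the homomorphism to a field -/
theorem exists_scale {n : ℕ} {X : Type} [Finite X] {k : Type} [Field k] (φ : 𝓞 F →+* k)
    (v : X → Fin n → F) (hv : ∃ x, v x ≠ 0) :
    ∃ (c : F) (v' : X → Fin n → 𝓞 F), c ≠ 0 ∧
      (∀ x i, algebraMap (𝓞 F) F (v' x i) = c * v x i) ∧
      ∃ x, (fun i => φ (v' x i)) ≠ 0 := by
  classical
  have := Fintype.ofFinite X
  obtain ⟨x₀, hx₀⟩ := hv
  obtain ⟨i₀, hi₀⟩ := Function.ne_iff.1 hx₀
  obtain ⟨c, h1, ⟨⟨x₁, i₁⟩, -, h2⟩⟩ := Ideal.exist_integer_multiples_notMem (A := 𝓞 F) (K := F)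
    (RingHom.ker_ne_top φ) (Finset.univ : Finset (X × Fin n)) (fun p => v p.1 p.2)
    (j := (x₀, i₀)) (Finset.mem_univ _) hi₀
  have h3 : ∀ x i, ∃ r : 𝓞 F, algebraMap (𝓞 F) F r = c * v x i :=
    fun x i => h1 (x, i) (Finset.mem_univ _)
  choose v' hv' using h3
  have h4 : v' x₁ i₁ ∉ RingHom.ker φ := by
    intro h
    apply h2
    rw [FractionalIdeal.mem_coeIdeal]
    exact ⟨v' x₁ i₁, h, hv' x₁ i₁⟩
  refine ⟨c, v', ?_, hv', x₁, ?_⟩
  · rintro rfl
    apply h4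
    have : v' x₁ i₁ = 0 := by
      apply alg_inj
      rw [hv', zero_mul, map_zero]
    rw [this]
    exact Ideal.zero_mem _
  · intro h
    apply h4
    exact congrFun h i₁

variable {G : Type} [Group G] {n : ℕ} {X : Type} [MulAction G X]

/-- the reduced system -/
theorem exists_reduction [Finite X] {k : Type} [Field k] (φ : 𝓞 F →+* k)
    (ρ : G →* Matrix (Fin n) (Fin n) (𝓞 F)) (v w : X → Fin n → F) (μ : G → X → 𝓞 F)
    (hS : Sys (mapRep (algebraMap (𝓞 F) F) ρ) v w (fun g x => algebraMap (𝓞 F) F (μ g x)))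
    (hv0 : ∃ x, v x ≠ 0) (hw0 : ∃ x, w x ≠ 0) :
    ∃ (κ : F) (M' : X → X → 𝓞 F) (v₁ w₁ : X → Fin n → k), κ ≠ 0 ∧
      (∀ x y, algebraMap (𝓞 F) F (M' x y) = κ * (w x ⬝ᵥ v y)) ∧
      (∀ x y, w₁ x ⬝ᵥ v₁ y = φ (M' x y)) ∧
      Sys (mapRep (φ) ρ) v₁ w₁ (fun g x => φ (μ g x)) ∧
      (∃ x, v₁ x ≠ 0) ∧ ∃ x, w₁ x ≠ 0 := by
  obtain ⟨c, v', hc, hv', x₁, hx₁⟩ := exists_scale φ v hv0
  obtain ⟨d, w', hd, hw', x₂, hx₂⟩ := exists_scale φ w hw0
  have ev : ∀ x, (fun i => algebraMap (𝓞 F) F (v' x i)) = c • v x :=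
    fun x => funext fun i => hv' x i
  have ew : ∀ x, (fun i => algebraMap (𝓞 F) F (w' x i)) = d • w x :=
    fun x => funext fun i => hw' x i
  have hS1 : ∀ g x, (ρ g) *ᵥ v' x = μ g x • v' (g • x) := by
    intro g x
    funext i
    apply alg_inj
    rw [coe_mulVec, ev]
    have h2 : (ρ g).map (algebraMap (𝓞 F) F) *ᵥ v x =
      algebraMap (𝓞 F) F (μ g x) • v (g • x) := hS.hv g x
    rw [Matrix.mulVec_smul, h2]
    simp only [Pi.smul_apply, smul_eq_mul, map_mul]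
    rw [hv']
    ring
  have hS2 : ∀ g x (j : Fin n), (w' (g • x) ᵥ* ρ g) j = μ g x * w' x j := by
    intro g x j
    apply alg_inj
    have h2 : w (g • x) ⬝ᵥ ((ρ g).map (algebraMap (𝓞 F) F) *ᵥ (Pi.single j 1)) =
      algebraMap (𝓞 F) F (μ g x) * (w x ⬝ᵥ Pi.single j 1) := hS.hw g x (Pi.single j 1)
    rw [Matrix.mulVec_single_one, dotProduct_single, mul_one] at h2
    have h3 : algebraMap (𝓞 F) F ((w' (g • x) ᵥ* ρ g) j) =
        d * (w (g • x) ⬝ᵥ ((ρ g).map (algebraMap (𝓞 F) F)).col j) := by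
      simp only [Matrix.vecMul, dotProduct, map_sum, map_mul, Finset.mul_sum]
      refine Finset.sum_congr rfl fun i _ => ?_
      rw [hw', mul_assoc]
      rfl
    rw [h3, h2, map_mul, hw']
    ring
  refine ⟨d * c, fun x y => w' x ⬝ᵥ v' y, fun x i => φ (v' x i),
    fun x i => φ (w' x i), mul_ne_zero hd hc, ?_, ?_, ⟨?_, ?_⟩, ⟨x₁, hx₁⟩,
    ⟨x₂, hx₂⟩⟩
  · intro x y
    rw [coe_dot, ev, ew, smul_dotProduct, dotProduct_smul, smul_eq_mul, smul_eq_mul]
    ring
  · intro x y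
    simp only [dotProduct, map_sum, map_mul]
  · intro g x
    funext i
    have h := congrArg (φ) (congrFun (hS1 g x) i)
    simp only [Pi.smul_apply, smul_eq_mul, map_mul] at h ⊢
    rw [← h]
    simp only [Matrix.mulVec, dotProduct, map_sum, map_mul]
    rfl
  · intro g x u
    have h : ∀ j, ((fun i => φ (w' (g • x) i)) ᵥ*
        (mapRep (φ) ρ g)) j =
        φ (μ g x) * φ (w' x j) := by
      intro j
      rw [← map_mul, ← hS2]
      simp only [Matrix.vecMul, dotProduct, map_sum, map_mul]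
      rfl
    rw [Matrix.dotProduct_mulVec]
    simp only [dotProduct, h, Finset.mul_sum]
    refine Finset.sum_congr rfl fun i _ => ?_
    ring

end Pool.Agent.H14.GI
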