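import Pool.Agent.H14.GI.Global
import Pool.Agent.H14.GI.Arith
import Pool.Agent.H14.GI.Local

/-!
MP_adb684_al: the case in which one of the two values outside the diagonal is zero.
-/

set_option autoImplicit false

open Matrix NumberField

namespace Pool.Agent.H14.GI

section
variable {G : Type} [Group G] {F : Type} [Field F] [NumberField F] {n : ℕ} {X : Type}
  [MulAction G X] [MulAction.IsPretransitive G X] [Fintype X]

omit [NumberField F] [Fintype X] in
theorem Sys.diag {P : G →* Matrix (Fin n) (Fin n) F} {v w : X → Fin n → F}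
    (hS : Sys P v w (fun _ _ => 1)) (x y : X) : w x ⬝ᵥ v x = w y ⬝ᵥ v y := by
  obtain ⟨g, rfl⟩ := MulAction.exists_smul_eq G x y
  have := hS.inv g x x
  simpa using this.symm

theorem closed_case (ρ : G →* Matrix (Fin n) (Fin n) (𝓞 F)) (σ : F →+* ℂ)
    (hρ : IrredVia (σ.comp (algebraMap (𝓞 F) F)) ρ) (hn : 2 ≤ n)
    (v w : X → Fin n → F) (hS : Sys (mapRep (algebraMap (𝓞 F) F) ρ) v w (fun _ _ => 1))
    (x₀ : X) (hv0 : ∃ x, v x ≠ 0) (hw0 : ∃ x, w x ≠ 0) (c1 : F)
    (hc : ∀ x y, x ≠ y → w x ⬝ᵥ v y = c1 ∨ w x ⬝ᵥ v y = 0)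
    (hirr : ∀ q : ℕ, q.Prime → q ∣ Fintype.card X →
      ∃ (k : Type) (_ : Field k) (_ : CharP k q) (φ : 𝓞 F →+* k), IrredVia φ ρ) : False := by
  classical
  have hP : Irr (mapRep σ (mapRep (algebraMap (𝓞 F) F) ρ)) := hρ
  set M : X → X → F := fun x y => w x ⬝ᵥ v y with hM
  have hinv : ∀ (g : G) (x y : X), M (g • x) (g • y) = M x y := by
    intro g x y
    have := hS.inv g x y
    simpa using this
  have hdiag : ∀ x, M x x = M x₀ x₀ := fun x => hS.diag x x₀
  have hrow : ∀ x, ∑ y, M x y = 0 := by
    intro x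
    have h := hS.row_sum σ hP hn
    have h1 : w x ⬝ᵥ (∑ y, v y) = 0 := by rw [h, dotProduct_zero]
    rw [dotProduct_sum] at h1
    exact h1
  obtain ⟨c, hsq, -, -⟩ := hS.square σ hP hn
  let N : X → Finset X := fun x => Finset.univ.filter (fun y => x ≠ y ∧ M x y ≠ 0)
  have hN : ∀ x y, y ∈ N x ↔ x ≠ y ∧ M x y ≠ 0 := by
    intro x y
    simp [N]
  have hval : ∀ x y, y ∈ N x → M x y = c1 := by
    intro x y h
    obtain ⟨h1, h2⟩ := (hN x y).1 h
    rcases hc x y h1 with h3 | h3
    · exact h3
    · exact absurd h3 h2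
  have hcard : ∀ x, (N x).card = (N x₀).card := by
    intro x
    obtain ⟨g, rfl⟩ := MulAction.exists_smul_eq G x₀ x
    symm
    apply Finset.card_bij (fun y _ => g • y)
    · intro y hy
      rw [hN] at hy ⊢
      refine ⟨fun h => hy.1 (smul_left_cancel g h), ?_⟩
      rw [hinv]; exact hy.2
    · intro a _ b _ h
      exact smul_left_cancel g h
    · intro y hy
      refine ⟨g⁻¹ • y, ?_, smul_inv_smul g y⟩
      rw [hN] at hy ⊢
      refine ⟨fun h => hy.1 ?_, ?_⟩
      · rw [h, smul_inv_smul]
      · have := hinv g x₀ (g⁻¹ • y)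
        rw [smul_inv_smul] at this
        rw [← this]; exact hy.2
  set k := (N x₀).card with hk
  -- the row sums
  have hsum : ∀ x, M x x + (k : F) * c1 = 0 := by
    intro x
    rw [← hrow x, ← hcard x]
    rw [← Finset.add_sum_erase _ _ (Finset.mem_univ x)]
    congr 1
    rw [← nsmul_eq_mul, ← Finset.sum_const]
    have e1 : ∑ y ∈ N x, c1 = ∑ y ∈ N x, M x y :=
      Finset.sum_congr rfl fun y hy => (hval x y hy).symm
    rw [e1]
    apply Finset.sum_subset
    · intro y hy
      rw [Finset.mem_erase]
      exact ⟨fun h => ((hN x y).1 hy).1 h.symm, Finset.mem_univ _⟩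
    · intro y hy hy'
      by_contra h
      exact hy' ((hN x y).2 ⟨fun h' => (Finset.mem_erase.1 hy).1 h'.symm, h⟩)
  have hsepC : ¬ ∀ x y, M x y = 0 := by
    intro h
    obtain ⟨y, hy⟩ := hv0
    apply hy
    have hS₃ := hS.map σ (mapRep σ (mapRep (algebraMap (𝓞 F) F) ρ)) (fun g => rfl)
    have h1 : (fun i => σ (v y i)) = 0 := by
      apply hS₃.sep hP
      · obtain ⟨x, hx⟩ := hw0
        refine ⟨x, fun h => hx ?_⟩
        funext i
        apply σ.injective
        rw [Pi.zero_apply, map_zero]
        exact congrFun h i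
      · intro x
        have h2 := congrArg σ (h x y)
        simp only [hM, dotProduct, map_sum, map_mul, map_zero] at h2 ⊢
        exact h2
    funext i
    apply σ.injective
    rw [Pi.zero_apply, map_zero]
    exact congrFun h1 i
  have hk1 : 1 ≤ k := by
    rcases Nat.eq_zero_or_pos k with h | h
    · exfalso
      apply hsepC
      intro x y
      by_cases hxy : x = y
      · subst hxy
        have := hsum x
        rw [h] at this
        simpa using this
      · by_contra h1
        have h2 : y ∈ N x := (hN x y).2 ⟨hxy, h1⟩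
        have h3 : 0 < (N x).card := Finset.card_pos.2 ⟨y, h2⟩
        rw [hcard, h] at h3
        exact lt_irrefl _ h3
    · exact h
  obtain ⟨y₀, hy₀⟩ : (N x₀).Nonempty := Finset.card_pos.1 (by omega)
  have hc1 : c1 ≠ 0 := by
    rw [← hval x₀ y₀ hy₀]
    exact ((hN _ _).1 hy₀).2
  -- transitivity
  have htr : ∀ x y z, y ∈ N x → z ∈ N y → x ≠ z → z ∈ N x := by
    intro x y z hxy hyz hxz
    by_contra hcon
    have h1 : M x z = 0 := by
      by_contra h
      exact hcon ((hN x z).2 ⟨hxz, h⟩)
    have h2 : ∑ y, M x y * M y z = 0 := by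
      rw [hsq x z]
      show c * M x z = 0
      rw [h1, mul_zero]
    have h3 : ∀ y, M x y * M y z = if y ∈ N x ∧ z ∈ N y then c1 ^ 2 else 0 := by
      intro y
      by_cases hy : y ∈ N x ∧ z ∈ N y
      · rw [if_pos hy, hval x y hy.1, hval y z hy.2, sq]
      · rw [if_neg hy]
        by_cases hyx : y = x
        · subst hyx; rw [h1, mul_zero]
        · by_cases hyz : y = z
          · subst hyz; rw [h1, zero_mul]
          · by_contra h4
            apply hy
            have h5 := left_ne_zero_of_mul h4
            have h6 := right_ne_zero_of_mul h4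
            exact ⟨(hN x y).2 ⟨fun h => hyx h.symm, h5⟩, (hN y z).2 ⟨hyz, h6⟩⟩
    rw [Finset.sum_congr rfl (fun y _ => h3 y), ← Finset.sum_filter, Finset.sum_const,
      nsmul_eq_mul] at h2
    have h4 : ((Finset.univ.filter (fun y => y ∈ N x ∧ z ∈ N y)).card : F) ≠ 0 := by
      rw [Nat.cast_ne_zero, Finset.card_ne_zero]
      exact ⟨y, by simp [hxy, hyz]⟩
    exact (mul_ne_zero h4 (pow_ne_zero 2 hc1)) h2
  have hins : ∀ x y, y ∈ N x → insert y (N y) = insert x (N x) := by
    intro x y hxy
    apply Finset.eq_of_subset_of_card_le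
    · intro z hz
      rw [Finset.mem_insert] at hz ⊢
      rcases hz with rfl | hz
      · exact Or.inr hxy
      · by_cases hxz : x = z
        · exact Or.inl hxz.symm
        · exact Or.inr (htr x y z hxy hz hxz)
    · rw [Finset.card_insert_of_notMem (fun h => ((hN _ _).1 h).1 rfl),
        Finset.card_insert_of_notMem (fun h => ((hN _ _).1 h).1 rfl), hcard, hcard]
  let s : Setoid X :=
    { r := fun x y => insert x (N x) = insert y (N y)
      iseqv := ⟨fun _ => rfl, fun h => h.symm, fun h h' => h.trans h'⟩ }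
  have hs : ∀ x y, s.r x y ↔ y ∈ insert x (N x) := by
    intro x y
    constructor
    · intro h
      have h' : insert x (N x) = insert y (N y) := h
      rw [h']
      exact Finset.mem_insert_self _ _
    · intro h
      rcases Finset.mem_insert.1 h with rfl | h
      · rfl
      · exact (hins x y h).symm
  have hdvd : (k + 1) ∣ Fintype.card X := by
    have h1 : Fintype.card X = ∑ q : Quotient s, (k + 1) := by
      rw [← Finset.card_univ, Finset.card_eq_sum_card_fiberwise (f := fun x => (⟦x⟧ : Quotient s))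
        (t := Finset.univ) (fun _ _ => Finset.mem_coe.2 (Finset.mem_univ _))]
      refine Finset.sum_congr rfl fun q _ => ?_
      induction q using Quotient.inductionOn with
      | h x =>
        have h2 : Finset.univ.filter (fun y : X => (⟦y⟧ : Quotient s) = ⟦x⟧) =
            insert x (N x) := by
          ext y
          rw [Finset.mem_filter]
          rw [← hs]
          constructor
          · intro h
            exact (Quotient.exact h.2 : s.r y x).symm
          · intro h
            exact ⟨Finset.mem_univ _, Quotient.sound (show s.r y x from Eq.symm h)⟩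
        rw [h2, Finset.card_insert_of_notMem (fun h => ((hN _ _).1 h).1 rfl), hcard]
    rw [h1, Finset.sum_const, smul_eq_mul]
    exact Dvd.intro_left _ rfl
  obtain ⟨L, hL, hLq, φ, hI⟩ := hirr (k + 1).minFac (Nat.minFac_prime (by omega))
    ((Nat.minFac_dvd _).trans hdvd)
  have htp : φ ((k + 1 : ℕ) : 𝓞 F) = 0 := by
    rw [map_natCast]
    exact (CharP.cast_eq_zero_iff L (k + 1).minFac (k + 1)).2 (Nat.minFac_dvd _)
  have hS' : Sys (mapRep (algebraMap (𝓞 F) F) ρ) v w
      (fun g x => algebraMap (𝓞 F) F ((fun _ _ => 1 : G → X → 𝓞 F) g x)) := by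
    simpa using hS
  obtain ⟨κ, M', v₁, w₁, hκ, hM', hvw, hS₁, hv₁, hw₁⟩ :=
    exists_reduction φ ρ v w (fun _ _ => 1) hS' hv0 hw0
  have hS₂ : Sys (mapRep φ ρ) v₁ w₁ (fun _ _ => 1) := by
    simpa using hS₁
  have hI' : Irr (mapRep φ ρ) := hI
  set β := φ (M' x₀ y₀) with hβ
  have hred : ∀ x y, w₁ x ⬝ᵥ v₁ y = if s.r x y then β else 0 := by
    intro x y
    rw [hvw]
    by_cases hxy : x = y
    · subst hxy
      have h1 : s.r x x := rfl
      rw [if_pos h1]
      have h2 : M' x x = M' x₀ y₀ - ((k + 1 : ℕ) : 𝓞 F) * M' x₀ y₀ := by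
        apply alg_inj
        rw [map_sub, map_mul, hM', hM', map_natCast]
        show κ * M x x = κ * M x₀ y₀ - _ * (κ * M x₀ y₀)
        rw [hval _ _ hy₀, eq_neg_of_add_eq_zero_left (hsum x)]
        push_cast
        ring
      rw [h2, map_sub, map_mul, htp, zero_mul, sub_zero]
    · by_cases h : y ∈ N x
      · have h1 : s.r x y := (hs x y).2 (Finset.mem_insert_of_mem h)
        rw [if_pos h1]
        have h2 : M' x y = M' x₀ y₀ := by
          apply alg_inj
          rw [hM', hM']
          show κ * M x y = κ * M x₀ y₀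
          rw [hval _ _ hy₀, hval _ _ h]
        rw [h2]
      · have h1 : ¬ s.r x y := by
          intro h1
          rcases Finset.mem_insert.1 ((hs x y).1 h1) with h2 | h2
          · exact hxy h2.symm
          · exact h h2
        rw [if_neg h1]
        have h2 : M' x y = 0 := by
          apply alg_inj
          rw [hM', map_zero]
          show κ * M x y = 0
          have h3 : M x y = 0 := by
            by_contra h3
            exact h ((hN x y).2 ⟨hxy, h3⟩)
          rw [h3, mul_zero]
        rw [h2, map_zero]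
  have hfin := hS₂.const hI' hn x₀ hw₁ (∑ q : Quotient s, v₁ q.out) β (by
    intro x
    rw [dotProduct_sum]
    rw [Finset.sum_eq_single (⟦x⟧ : Quotient s)]
    · rw [hred, if_pos]
      exact Quotient.exact (Quotient.out_eq (⟦x⟧ : Quotient s)).symm
    · intro q _ hq
      rw [hred, if_neg]
      intro h
      apply hq
      rw [← Quotient.out_eq q]
      exact (Quotient.sound h).symm
    · intro h; exact absurd (Finset.mem_univ _) h)
  obtain ⟨y, hy⟩ := hv₁
  apply hy
  apply hS₂.sep hI' hw₁
  intro x
  rw [hred, hfin.2]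
  simp

end

end Pool.Agent.H14.GI
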