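import Pool.Agent.H14.GI.Basic

/-!
MP_adb684_al: consequences of the irreducibility over the complex numbers.
-/

set_option autoImplicit false

open Matrix

namespace Pool.Agent.H14.GI

section
variable {G : Type} [Group G] {K : Type} [CommRing K] {n : ℕ} {X : Type} [MulAction G X]
  {P : G →* Matrix (Fin n) (Fin n) K} {v w : X → Fin n → K} {μ : G → X → K}

theorem Sys.vec (hS : Sys P v w μ) (g : G) (x : X) : w (g • x) ᵥ* P g = μ g x • w x := by
  funext j
  have h := hS.hw g x (Pi.single j 1)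
  rw [Matrix.dotProduct_mulVec, dotProduct_single, dotProduct_single, mul_one, mul_one] at h
  exact h

theorem Sys.of_vec (h1 : ∀ g x, P g *ᵥ v x = μ g x • v (g • x))
    (h2 : ∀ g x, w (g • x) ᵥ* P g = μ g x • w x) : Sys P v w μ := by
  refine ⟨h1, fun g x u => ?_⟩
  rw [Matrix.dotProduct_mulVec, h2, smul_dotProduct, smul_eq_mul]

/-- the invariance of the matrix -/
theorem Sys.inv (hS : Sys P v w μ) (g : G) (x y : X) :
    μ g y * (w (g • x) ⬝ᵥ v (g • y)) = μ g x * (w x ⬝ᵥ v y) := by
  rw [← hS.hw g x (v y), hS.hv, dotProduct_smul, smul_eq_mul]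

theorem Sys.map {L : Type} [CommRing L] (φ : K →+* L) (hS : Sys P v w μ)
    (Q : G →* Matrix (Fin n) (Fin n) L) (hQ : ∀ g, Q g = (P g).map φ) :
    Sys Q (fun x i => φ (v x i)) (fun x i => φ (w x i)) (fun g x => φ (μ g x)) := by
  apply Sys.of_vec
  · intro g x
    funext i
    have h := congrArg φ (congrFun (hS.hv g x) i)
    simp only [Matrix.mulVec, dotProduct, map_sum, map_mul, Pi.smul_apply, smul_eq_mul] at h
    rw [hQ]
    simp only [Matrix.mulVec, dotProduct, Pi.smul_apply, smul_eq_mul, Matrix.map_apply]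
    exact h
  · intro g x
    funext i
    have h := congrArg φ (congrFun (hS.vec g x) i)
    simp only [Matrix.vecMul, dotProduct, map_sum, map_mul, Pi.smul_apply, smul_eq_mul] at h
    rw [hQ]
    simp only [Matrix.vecMul, dotProduct, Pi.smul_apply, smul_eq_mul, Matrix.map_apply]
    exact h

theorem Sys.sum_mul [Fintype X] (hS : Sys P v w μ) (g : G) :
    P g * (∑ y, Matrix.vecMulVec (v y) (w y)) = (∑ y, Matrix.vecMulVec (v y) (w y)) * P g := by
  rw [Finset.mul_sum, Finset.sum_mul]
  rw [← Equiv.sum_comp (MulAction.toPerm g) (fun y => Matrix.vecMulVec (v y) (w y) * P g)]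
  refine Finset.sum_congr rfl fun y _ => ?_
  rw [MulAction.toPerm_apply, Matrix.vecMulVec_mul, Matrix.mul_vecMulVec, hS.hv, hS.vec,
    Matrix.smul_vecMulVec, Matrix.vecMulVec_smul]

end

section
variable {G : Type} [Group G] {F : Type} [Field F] {n : ℕ} {X : Type} [MulAction G X]
  [Fintype X] {P : G →* Matrix (Fin n) (Fin n) F} {v w : X → Fin n → F} {μ : G → X → F}

/-- the matrix of the products satisfies a quadratic equation -/
theorem Sys.square (hS : Sys P v w μ) (σ : F →+* ℂ) (hP : Irr (mapRep σ P)) (hn : 2 ≤ n) :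
    ∃ c : F, (∀ x z, ∑ y, (w x ⬝ᵥ v y) * (w y ⬝ᵥ v z) = c * (w x ⬝ᵥ v z)) ∧
      (n : F) * c = ∑ x, w x ⬝ᵥ v x ∧ ∀ z, ∑ y, (w y ⬝ᵥ v z) • v y = c • v z := by
  set B : Matrix (Fin n) (Fin n) F := ∑ y, Matrix.vecMulVec (v y) (w y) with hB
  obtain ⟨c', hc'⟩ := schur hP hn (B.map σ) (by
    intro g
    have h : (P g * B).map σ = (B * P g).map σ := by rw [hS.sum_mul g]
    rw [Matrix.map_mul, Matrix.map_mul] at h
    exact h)
  have hne : ∃ i₀ : Fin n, True := ⟨⟨0, by omega⟩, trivial⟩
  obtain ⟨i₀, -⟩ := hne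
  have hBc : B = B i₀ i₀ • (1 : Matrix (Fin n) (Fin n) F) := by
    ext i j
    apply σ.injective
    have h1 : σ (B i j) = (c' • (1 : Matrix (Fin n) (Fin n) ℂ)) i j := by
      rw [← hc', Matrix.map_apply]
    have h2 : σ (B i₀ i₀) = (c' • (1 : Matrix (Fin n) (Fin n) ℂ)) i₀ i₀ := by
      rw [← hc', Matrix.map_apply]
    rw [h1, Matrix.smul_apply, Matrix.smul_apply, smul_eq_mul, smul_eq_mul, map_mul, h2,
      Matrix.smul_apply, Matrix.one_apply_eq, smul_eq_mul, mul_one]
    congr 1
    by_cases hij : i = j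
    · subst hij; simp
    · simp [hij]
  have hBv : ∀ z, ∑ y, (w y ⬝ᵥ v z) • v y = B i₀ i₀ • v z := by
    intro z
    have h1 : B *ᵥ v z = B i₀ i₀ • v z := by
      conv_lhs => rw [hBc]
      rw [Matrix.smul_mulVec, Matrix.one_mulVec]
    rw [← h1, hB, Matrix.sum_mulVec]
    refine Finset.sum_congr rfl fun y _ => ?_
    rw [Matrix.vecMulVec_mulVec]
    simp
  refine ⟨B i₀ i₀, ?_, ?_, hBv⟩
  · intro x z
    have h1 := congrArg (fun u => w x ⬝ᵥ u) (hBv z)
    simp only [dotProduct_smul, smul_eq_mul] at h1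
    rw [← h1, dotProduct_sum]
    refine Finset.sum_congr rfl fun y _ => ?_
    rw [dotProduct_smul, smul_eq_mul, mul_comm]
  · have h1 : Matrix.trace B = (n : F) * B i₀ i₀ := by
      conv_lhs => rw [hBc]
      rw [Matrix.trace_smul, Matrix.trace_one, Fintype.card_fin, smul_eq_mul, mul_comm]
    rw [← h1, hB, Matrix.trace_sum]
    refine Finset.sum_congr rfl fun x _ => ?_
    rw [Matrix.trace_vecMulVec, dotProduct_comm]

/-- the row sums are zero -/
theorem Sys.row_sum (hS : Sys P v w (fun _ _ => 1)) (σ : F →+* ℂ) (hP : Irr (mapRep σ P))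
    (hn : 2 ≤ n) : ∑ y, v y = 0 := by
  have h : ∀ g, P g *ᵥ (∑ y, v y) = ∑ y, v y := by
    intro g
    rw [Matrix.mulVec_sum]
    rw [← Equiv.sum_comp (MulAction.toPerm g) v]
    refine Finset.sum_congr rfl fun y _ => ?_
    rw [hS.hv, one_smul, MulAction.toPerm_apply]
  have h1 : (fun i => σ ((∑ y, v y) i)) = 0 := by
    apply fixed_line hP hn
    intro g
    refine ⟨1, ?_⟩
    rw [one_smul]
    funext i
    have h2 := congrArg σ (congrFun (h g) i)
    rw [← h2]
    show ((P g).map σ *ᵥ fun i => σ ((∑ y, v y) i)) i = _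
    simp only [Matrix.mulVec, dotProduct, map_sum, map_mul, Matrix.map_apply]
  funext i
  apply σ.injective
  rw [Pi.zero_apply, map_zero]
  exact congrFun h1 i

/-- the column sums are zero -/
theorem Sys.col_sum (hS : Sys P v w (fun _ _ => 1)) (σ : F →+* ℂ) (hP : Irr (mapRep σ P))
    (hn : 2 ≤ n) : ∑ y, w y = 0 := by
  have h : ∀ g, (∑ y, w y) ᵥ* P g = ∑ y, w y := by
    intro g
    rw [Matrix.sum_vecMul]
    rw [← Equiv.sum_comp (MulAction.toPerm g) (fun y => w y ᵥ* P g)]
    refine Finset.sum_congr rfl fun y _ => ?_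
    rw [MulAction.toPerm_apply, hS.vec, one_smul]
  have h1 : (fun i => σ ((∑ y, w y) i)) = 0 := by
    apply fixed_functional hP hn
    intro g u
    rw [Matrix.dotProduct_mulVec]
    congr 1
    funext i
    have h2 := congrArg σ (congrFun (h g) i)
    rw [← h2]
    show ((fun i => σ ((∑ y, w y) i)) ᵥ* (P g).map σ) i = _
    simp only [Matrix.vecMul, dotProduct, map_sum, map_mul, Matrix.map_apply]
  funext i
  apply σ.injective
  rw [Pi.zero_apply, map_zero]
  exact congrFun h1 i

/-- two relations between `n + 1` generating vectors are proportional -/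
theorem Sys.relations (hS : Sys P v w μ) (hP : Irr P) (hv0 : ∃ x, v x ≠ 0)
    (hm : Fintype.card X = n + 1) (f g : X → F) (hf : ∑ y, f y • v y = 0)
    (hg : ∑ y, g y • v y = 0) (x z : X) : f x * g z = f z * g x := by
  let L : (X → F) →ₗ[F] (Fin n → F) :=
    { toFun := fun f => ∑ y, f y • v y
      map_add' := by
        intro f g
        simp only [Pi.add_apply, add_smul, Finset.sum_add_distrib]
      map_smul' := by
        intro c f
        simp only [Pi.smul_apply, smul_eq_mul, mul_smul, Finset.smul_sum, RingHom.id_apply] }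
  have hr : LinearMap.range L = ⊤ := by
    rw [eq_top_iff, ← hS.span_top hP hv0, Submodule.span_le]
    rintro _ ⟨x, rfl⟩
    classical
    refine ⟨Pi.single x 1, ?_⟩
    show ∑ y, (Pi.single x (1 : F) : X → F) y • v y = v x
    rw [Finset.sum_eq_single x]
    · simp
    · intro y _ hy
      simp [Pi.single_eq_of_ne hy]
    · intro h; exact absurd (Finset.mem_univ _) h
  have hk : Module.finrank F (LinearMap.ker L) = 1 := by
    have h1 := LinearMap.finrank_range_add_finrank_ker L
    rw [hr, finrank_top, Module.finrank_fin_fun, Module.finrank_fintype_fun_eq_card, hm] at h1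
    omega
  obtain ⟨u, -, hu⟩ := finrank_eq_one_iff'.1 hk
  obtain ⟨a, ha⟩ := hu ⟨f, hf⟩
  obtain ⟨b, hb⟩ := hu ⟨g, hg⟩
  have ha' : f = a • (u : X → F) := (congrArg Subtype.val ha).symm
  have hb' : g = b • (u : X → F) := (congrArg Subtype.val hb).symm
  rw [ha', hb']
  simp only [Pi.smul_apply, smul_eq_mul]
  ring

end

end Pool.Agent.H14.GI
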