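import Pool.Agent.H14.GI.Apply
import Pool.Agent.H14.GI.Descent

/-!
MP_adb684_al: the main theorems.
-/

set_option autoImplicit false

open Matrix NumberField

namespace Pool.Agent.H14.GI

theorem irredVia_mapRep {G : Type} [Group G] {R S K : Type} [CommRing R] [CommRing S]
    [CommRing K] {n : ℕ} (φ : S →+* K) (ι : R →+* S) (ρ : G →* Matrix (Fin n) (Fin n) R) :
    IrredVia φ (mapRep ι ρ) ↔ IrredVia (φ.comp ι) ρ := Iff.rfl

section transfer
variable {A B : Type} [CommRing A] [CommRing B] {n : ℕ} (f : A →+* B)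

theorem tr_mulVec (M : Matrix (Fin n) (Fin n) A) (v : Fin n → A) :
    (M.map f) *ᵥ (fun i => f (v i)) = fun i => f ((M *ᵥ v) i) := by
  funext i
  simp only [Matrix.mulVec, dotProduct, map_sum, map_mul, Matrix.map_apply]

theorem tr_vecMul (M : Matrix (Fin n) (Fin n) A) (v : Fin n → A) :
    (fun i => f (v i)) ᵥ* (M.map f) = fun i => f ((v ᵥ* M) i) := by
  funext i
  simp only [Matrix.vecMul, dotProduct, map_sum, map_mul, Matrix.map_apply]

theorem tr_dot (w v : Fin n → A) :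
    (fun i => f (w i)) ⬝ᵥ (fun i => f (v i)) = f (w ⬝ᵥ v) := by
  simp only [dotProduct, map_sum, map_mul]

end transfer

section ne
variable {G : Type} [Group G] {K : Type} [CommRing K] {n : ℕ} (P : G →* Matrix (Fin n) (Fin n) K)

theorem mulVec_ne {v : Fin n → K} (hv : v ≠ 0) (g : G) : P g *ᵥ v ≠ 0 := by
  intro h
  apply hv
  have h1 : P g⁻¹ *ᵥ (P g *ᵥ v) = v := by
    rw [Matrix.mulVec_mulVec, ← map_mul, inv_mul_cancel, map_one, Matrix.one_mulVec]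
  rw [← h1, h, Matrix.mulVec_zero]

theorem vecMul_ne {w : Fin n → K} (hw : w ≠ 0) (g : G) : w ᵥ* P g ≠ 0 := by
  intro h
  apply hw
  have h1 : (w ᵥ* P g) ᵥ* P g⁻¹ = w := by
    rw [Matrix.vecMul_vecMul, ← map_mul, mul_inv_cancel, map_one, Matrix.vecMul_one]
  rw [← h1, h, Matrix.zero_vecMul]

end ne

section number_field
variable {G : Type} [Group G] [Finite G] {F : Type} [Field F] [NumberField F] {n : ℕ}

/-- two values of the matrix coefficient outside `H`, vectors over the number field -/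
theorem main_two_values (ρ : G →* Matrix (Fin n) (Fin n) (𝓞 F)) (σ : F →+* ℂ)
    (hρ : IrredVia (σ.comp (algebraMap (𝓞 F) F)) ρ) (hn : 2 ≤ n) (H : Subgroup G)
    (v w : Fin n → F) (hv : ∀ h ∈ H, (ρ h).map (algebraMap (𝓞 F) F) *ᵥ v = v)
    (hw : ∀ h ∈ H, w ᵥ* (ρ h).map (algebraMap (𝓞 F) F) = w) (hv0 : v ≠ 0) (hw0 : w ≠ 0) (c₁ c₂ : F)
    (hc : ∀ g, g ∉ H → w ⬝ᵥ ((ρ g).map (algebraMap (𝓞 F) F) *ᵥ v) = c₁ ∨
      w ⬝ᵥ ((ρ g).map (algebraMap (𝓞 F) F) *ᵥ v) = c₂) :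
    ∃ q : ℕ, q.Prime ∧ q ∣ H.index ∧
      ∀ (k : Type) [Field k] [CharP k q] (φ : 𝓞 F →+* k), ¬ IrredVia φ ρ := by
  classical
  have := Fintype.ofFinite (G ⧸ H)
  by_contra hcon
  push Not at hcon
  set P := mapRep (algebraMap (𝓞 F) F) ρ with hP
  have hS := sys_of_pair H P v w (fun _ => 1) (fun h => by rw [one_smul]; exact hv h h.2)
    (fun h => by rw [one_smul]; exact hw h h.2)
  refine two_values (X := G ⧸ H) ρ σ hρ hn _ _ hS ((1 : G) : G ⧸ H)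
    ⟨((1 : G) : G ⧸ H), mulVec_ne P hv0 _⟩ ⟨((1 : G) : G ⧸ H), vecMul_ne P hw0 _⟩ c₁ c₂ ?_ ?_
  · intro x y hxy
    rw [pair_apply]
    exact hc _ (out_not_mem H hxy)
  · intro q hq hqm
    obtain ⟨k, h1, h2, φ, h3⟩ := hcon q hq (by
      rw [Subgroup.index_eq_card, Nat.card_eq_fintype_card]
      exact hqm)
    exact ⟨k, h1, h2, φ, h3⟩

/-- values in `a * (roots of unity of order a power of q)` outside `H`, vectors over the number
field -/
theorem main_root_values (ρ : G →* Matrix (Fin n) (Fin n) (𝓞 F)) (σ : F →+* ℂ)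
    (hρ : IrredVia (σ.comp (algebraMap (𝓞 F) F)) ρ) (hn : 2 ≤ n) (H : Subgroup G)
    (q e : ℕ) (hq : q.Prime) (l : H → F) (hl : ∀ h, l h ^ q ^ e = 1)
    (v w : Fin n → F) (hv : ∀ h : H, (ρ h).map (algebraMap (𝓞 F) F) *ᵥ v = l h • v)
    (hw : ∀ h : H, w ᵥ* (ρ h).map (algebraMap (𝓞 F) F) = l h • w) (hv0 : v ≠ 0) (hw0 : w ≠ 0) (a : F)
    (hc : ∀ g, g ∉ H → ∃ ζ : F, ζ ^ q ^ e = 1 ∧
      w ⬝ᵥ ((ρ g).map (algebraMap (𝓞 F) F) *ᵥ v) = a * ζ) :
    ∃ p : ℕ, p.Prime ∧ (p = q ∨ p ∣ H.index) ∧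
      ∀ (k : Type) [Field k] [CharP k p] (φ : 𝓞 F →+* k), ¬ IrredVia φ ρ := by
  classical
  have := Fintype.ofFinite (G ⧸ H)
  by_contra hcon
  push Not at hcon
  set P := mapRep (algebraMap (𝓞 F) F) ρ with hP
  have hint : ∀ ζ : F, ζ ^ q ^ e = 1 → ∃ z : 𝓞 F, z ^ q ^ e = 1 ∧
      algebraMap (𝓞 F) F z = ζ := by
    intro ζ hζ
    have h1 : IsIntegral ℤ ζ := by
      apply IsIntegral.of_pow (n := q ^ e) (pow_pos hq.pos e)
      rw [hζ]
      exact isIntegral_one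
    refine ⟨⟨ζ, h1⟩, ?_, rfl⟩
    apply alg_inj
    rw [map_pow, map_one]
    exact hζ
  choose! lift hl1 hl2 using hint
  have hS := sys_of_pair H P v w l hv hw
  refine root_values (X := G ⧸ H) ρ σ hρ hn (fun x => P x.out *ᵥ v) (fun x => w ᵥ* P x.out⁻¹)
    q e hq (fun g x => lift (l ⟨(g • x).out⁻¹ * (g * x.out), out_mem H g x⟩))
    (fun g x => hl1 _ (hl _)) ?_ ((1 : G) : G ⧸ H)
    ⟨((1 : G) : G ⧸ H), mulVec_ne P hv0 _⟩ ⟨((1 : G) : G ⧸ H), vecMul_ne P hw0 _⟩ a ?_ ?_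
  · have e1 : (fun (g : G) (x : G ⧸ H) => algebraMap (𝓞 F) F
        (lift (l ⟨(g • x).out⁻¹ * (g * x.out), out_mem H g x⟩))) =
        fun g x => l ⟨(g • x).out⁻¹ * (g * x.out), out_mem H g x⟩ := by
      funext g x
      exact hl2 _ (hl _)
    rw [e1]
    exact hS
  · intro x y hxy
    obtain ⟨ζ, hζ, h1⟩ := hc _ (out_not_mem H hxy)
    refine ⟨lift ζ, hl1 ζ hζ, ?_⟩
    rw [pair_apply, hl2 ζ hζ]
    exact h1
  · intro p hp hm
    obtain ⟨k, h1, h2, φ, h3⟩ := hcon p hp (by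
      rw [Subgroup.index_eq_card, Nat.card_eq_fintype_card]
      exact hm)
    exact ⟨k, h1, h2, φ, h3⟩

end number_field

section complex
variable {G : Type} [Group G] [Finite G] {F : Type} [Field F] [NumberField F] {n : ℕ}

/-- two values of the matrix coefficient outside `H`, complex vectors -/
theorem complex_two_values (ρ : G →* Matrix (Fin n) (Fin n) (𝓞 F)) (σ : F →+* ℂ)
    (hρ : IrredVia (σ.comp (algebraMap (𝓞 F) F)) ρ) (hn : 2 ≤ n) (H : Subgroup G)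
    (v w : Fin n → ℂ) (hv : ∀ h ∈ H, (ρ h).map (σ.comp (algebraMap (𝓞 F) F)) *ᵥ v = v)
    (hw : ∀ h ∈ H, w ᵥ* (ρ h).map (σ.comp (algebraMap (𝓞 F) F)) = w) (hv0 : v ≠ 0) (hw0 : w ≠ 0)
    (c₁ c₂ : ℂ)
    (hc : ∀ g, g ∉ H → w ⬝ᵥ ((ρ g).map (σ.comp (algebraMap (𝓞 F) F)) *ᵥ v) = c₁ ∨
      w ⬝ᵥ ((ρ g).map (σ.comp (algebraMap (𝓞 F) F)) *ᵥ v) = c₂) :
    ∃ q : ℕ, q.Prime ∧ q ∣ H.index ∧
      ∀ (k : Type) [Field k] [IsAlgClosed k] [CharP k q] (φ : 𝓞 F →+* k), ¬ IrredVia φ ρ := by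
  obtain ⟨i₀, hi₀⟩ := Function.ne_iff.1 hv0
  obtain ⟨j₀, hj₀⟩ := Function.ne_iff.1 hw0
  obtain ⟨E, hE, hNE, τ, R, hR, j, σR, ψ, hj, hjσ, hτ, hs⟩ := descent σ
    (Set.range v ∪ Set.range w ∪ {(v i₀ * w j₀)⁻¹, c₁, c₂})
    (((Set.finite_range v).union (Set.finite_range w)).union (Set.toFinite _))
  choose vR hvR using fun i => hs (v i) (Or.inl (Or.inl ⟨i, rfl⟩))
  choose wR hwR using fun i => hs (w i) (Or.inl (Or.inr ⟨i, rfl⟩))
  obtain ⟨uR, huR⟩ := hs (v i₀ * w j₀)⁻¹ (Or.inr (Or.inl rfl))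
  obtain ⟨d₁, hd₁⟩ := hs c₁ (Or.inr (Or.inr (Or.inl rfl)))
  obtain ⟨d₂, hd₂⟩ := hs c₂ (Or.inr (Or.inr (Or.inr rfl)))
  have ev : (fun i => j (vR i)) = v := funext hvR
  have ew : (fun i => j (wR i)) = w := funext hwR
  set PR : G →* Matrix (Fin n) (Fin n) R := mapRep (σR.comp (algebraMap (𝓞 F) F)) ρ with hPR
  have ePR : ∀ g, (PR g).map j = (ρ g).map (σ.comp (algebraMap (𝓞 F) F)) := by
    intro g
    rw [← hjσ]
    rfl
  -- the relations over `R`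
  have hvR' : ∀ h ∈ H, PR h *ᵥ vR = vR := by
    intro h hh
    have h1 := hv h hh
    rw [← ePR, ← ev, tr_mulVec] at h1
    funext i
    exact hj (congrFun h1 i)
  have hwR' : ∀ h ∈ H, wR ᵥ* PR h = wR := by
    intro h hh
    have h1 := hw h hh
    rw [← ePR, ← ew, tr_vecMul] at h1
    funext i
    exact hj (congrFun h1 i)
  have huR' : uR * (vR i₀ * wR j₀) = 1 := by
    apply hj
    rw [map_mul, huR, map_mul, hvR, hwR, inv_mul_cancel₀ (mul_ne_zero hi₀ hj₀), map_one]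
  have huE : ψ uR * (ψ (vR i₀) * ψ (wR j₀)) = 1 := by
    rw [← map_mul, ← map_mul, huR', map_one]
  have hcR : ∀ g, g ∉ H → wR ⬝ᵥ (PR g *ᵥ vR) = d₁ ∨ wR ⬝ᵥ (PR g *ᵥ vR) = d₂ := by
    intro g hg
    have h1 := hc g hg
    rw [← ePR, ← ev, ← ew, tr_mulVec, tr_dot, ← hd₁, ← hd₂] at h1
    exact h1.imp (fun h => hj h) (fun h => hj h)
  -- the relations over `E`
  set ι : F →+* E := ψ.comp σR with hι
  set ι₀ : 𝓞 F →+* 𝓞 E := RingOfIntegers.mapRingHom ι with hι₀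
  set ρE := mapRep ι₀ ρ with hρE
  have ePE : ∀ g, (PR g).map ψ = (ρE g).map (algebraMap (𝓞 E) E) := fun g => rfl
  have hirr : IrredVia (τ.comp (algebraMap (𝓞 E) E)) ρE := by
    have h1 : (τ.comp (algebraMap (𝓞 E) E)).comp ι₀ = σ.comp (algebraMap (𝓞 F) F) := by
      rw [← hτ]
      rfl
    rw [hρE, irredVia_mapRep, h1]
    exact hρ
  obtain ⟨q, hq, hqH, hk⟩ := main_two_values ρE τ hirr hn H (fun i => ψ (vR i))
    (fun i => ψ (wR i)) (fun h hh => by rw [← ePE, tr_mulVec, hvR' h hh])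
    (fun h hh => by rw [← ePE, tr_vecMul, hwR' h hh])
    (by
      intro h
      have h1 : ψ (vR i₀) = 0 := congrFun h i₀
      rw [h1, zero_mul, mul_zero] at huE
      exact zero_ne_one huE)
    (by
      intro h
      have h1 : ψ (wR j₀) = 0 := congrFun h j₀
      rw [h1, mul_zero, mul_zero] at huE
      exact zero_ne_one huE) (ψ d₁) (ψ d₂) (fun g hg => by
      rw [← ePE, tr_mulVec, tr_dot]
      exact (hcR g hg).imp (fun h => by rw [h]) (fun h => by rw [h]))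
  refine ⟨q, hq, hqH, ?_⟩
  intro k hk1 hk2 hk3 φ hφ
  obtain ⟨φ', hφ'⟩ := extend_hom ι φ
  apply hk k φ'
  rw [hρE, irredVia_mapRep, hφ']
  exact hφ

/-- values in `a * (roots of unity of order a power of q)` outside `H`, complex vectors -/
theorem complex_root_values (ρ : G →* Matrix (Fin n) (Fin n) (𝓞 F)) (σ : F →+* ℂ)
    (hρ : IrredVia (σ.comp (algebraMap (𝓞 F) F)) ρ) (hn : 2 ≤ n) (H : Subgroup G)
    (q e : ℕ) (hq : q.Prime) (l : H → ℂ) (hl : ∀ h, l h ^ q ^ e = 1)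
    (v w : Fin n → ℂ)
    (hv : ∀ h : H, (ρ h).map (σ.comp (algebraMap (𝓞 F) F)) *ᵥ v = l h • v)
    (hw : ∀ h : H, w ᵥ* (ρ h).map (σ.comp (algebraMap (𝓞 F) F)) = l h • w)
    (hv0 : v ≠ 0) (hw0 : w ≠ 0) (a : ℂ)
    (hc : ∀ g, g ∉ H → ∃ ζ : ℂ, ζ ^ q ^ e = 1 ∧
      w ⬝ᵥ ((ρ g).map (σ.comp (algebraMap (𝓞 F) F)) *ᵥ v) = a * ζ) :
    ∃ p : ℕ, p.Prime ∧ (p = q ∨ p ∣ H.index) ∧
      ∀ (k : Type) [Field k] [IsAlgClosed k] [CharP k p] (φ : 𝓞 F →+* k), ¬ IrredVia φ ρ := by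
  choose! z hz1 hz2 using hc
  obtain ⟨i₀, hi₀⟩ := Function.ne_iff.1 hv0
  obtain ⟨j₀, hj₀⟩ := Function.ne_iff.1 hw0
  obtain ⟨E, hE, hNE, τ, R, hR, j, σR, ψ, hj, hjσ, hτ, hs⟩ := descent σ
    (Set.range v ∪ Set.range w ∪ (Set.range l ∪ Set.range z) ∪ {(v i₀ * w j₀)⁻¹, a})
    ((((Set.finite_range v).union (Set.finite_range w)).union
      ((Set.finite_range l).union (Set.finite_range z))).union (Set.toFinite _))
  choose vR hvR using fun i => hs (v i) (Or.inl (Or.inl (Or.inl ⟨i, rfl⟩)))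
  choose wR hwR using fun i => hs (w i) (Or.inl (Or.inl (Or.inr ⟨i, rfl⟩)))
  choose lR hlR using fun i => hs (l i) (Or.inl (Or.inr (Or.inl ⟨i, rfl⟩)))
  choose zR hzR using fun i => hs (z i) (Or.inl (Or.inr (Or.inr ⟨i, rfl⟩)))
  obtain ⟨uR, huR⟩ := hs (v i₀ * w j₀)⁻¹ (Or.inr (Or.inl rfl))
  obtain ⟨b, hb⟩ := hs a (Or.inr (Or.inr rfl))
  have ev : (fun i => j (vR i)) = v := funext hvR
  have ew : (fun i => j (wR i)) = w := funext hwR
  set PR : G →* Matrix (Fin n) (Fin n) R := mapRep (σR.comp (algebraMap (𝓞 F) F)) ρ with hPR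
  have ePR : ∀ g, (PR g).map j = (ρ g).map (σ.comp (algebraMap (𝓞 F) F)) := by
    intro g
    rw [← hjσ]
    rfl
  -- the relations over `R`
  have hvR' : ∀ h : H, PR h *ᵥ vR = lR h • vR := by
    intro h
    have h1 := hv h
    rw [← ePR, ← ev, tr_mulVec] at h1
    funext i
    apply hj
    have h2 := congrFun h1 i
    simp only [Pi.smul_apply, smul_eq_mul, map_mul, hlR] at h2 ⊢
    exact h2
  have hwR' : ∀ h : H, wR ᵥ* PR h = lR h • wR := by
    intro h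
    have h1 := hw h
    rw [← ePR, ← ew, tr_vecMul] at h1
    funext i
    apply hj
    have h2 := congrFun h1 i
    simp only [Pi.smul_apply, smul_eq_mul, map_mul, hlR] at h2 ⊢
    exact h2
  have huR' : uR * (vR i₀ * wR j₀) = 1 := by
    apply hj
    rw [map_mul, huR, map_mul, hvR, hwR, inv_mul_cancel₀ (mul_ne_zero hi₀ hj₀), map_one]
  have huE : ψ uR * (ψ (vR i₀) * ψ (wR j₀)) = 1 := by
    rw [← map_mul, ← map_mul, huR', map_one]
  have hlR' : ∀ h, lR h ^ q ^ e = 1 := by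
    intro h
    apply hj
    rw [map_pow, hlR, hl, map_one]
  have hcR : ∀ g, g ∉ H → zR g ^ q ^ e = 1 ∧ wR ⬝ᵥ (PR g *ᵥ vR) = b * zR g := by
    intro g hg
    refine ⟨?_, ?_⟩
    · apply hj
      rw [map_pow, hzR, hz1 g hg, map_one]
    · have h1 := hz2 g hg
      rw [← ePR, ← ev, ← ew, tr_mulVec, tr_dot] at h1
      apply hj
      rw [h1, map_mul, hb, hzR]
  -- the relations over `E`
  set ι : F →+* E := ψ.comp σR with hι
  set ι₀ : 𝓞 F →+* 𝓞 E := RingOfIntegers.mapRingHom ι with hι₀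
  set ρE := mapRep ι₀ ρ with hρE
  have ePE : ∀ g, (PR g).map ψ = (ρE g).map (algebraMap (𝓞 E) E) := fun g => rfl
  have hirr : IrredVia (τ.comp (algebraMap (𝓞 E) E)) ρE := by
    have h1 : (τ.comp (algebraMap (𝓞 E) E)).comp ι₀ = σ.comp (algebraMap (𝓞 F) F) := by
      rw [← hτ]
      rfl
    rw [hρE, irredVia_mapRep, h1]
    exact hρ
  obtain ⟨p, hp, hpH, hk⟩ := main_root_values ρE τ hirr hn H q e hq (fun h => ψ (lR h))
    (fun h => by rw [← map_pow, hlR', map_one]) (fun i => ψ (vR i))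
    (fun i => ψ (wR i)) (fun h => by
      rw [← ePE, tr_mulVec, hvR' h]
      funext i
      simp only [Pi.smul_apply, smul_eq_mul, map_mul])
    (fun h => by
      rw [← ePE, tr_vecMul, hwR' h]
      funext i
      simp only [Pi.smul_apply, smul_eq_mul, map_mul])
    (by
      intro h
      have h1 : ψ (vR i₀) = 0 := congrFun h i₀
      rw [h1, zero_mul, mul_zero] at huE
      exact zero_ne_one huE)
    (by
      intro h
      have h1 : ψ (wR j₀) = 0 := congrFun h j₀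
      rw [h1, mul_zero, mul_zero] at huE
      exact zero_ne_one huE) (ψ b) (fun g hg => ⟨ψ (zR g), by
        rw [← map_pow, (hcR g hg).1, map_one], by
        rw [← ePE, tr_mulVec, tr_dot, (hcR g hg).2, map_mul]⟩)
  refine ⟨p, hp, hpH, ?_⟩
  intro k hk1 hk2 hk3 φ hφ
  obtain ⟨φ', hφ'⟩ := extend_hom ι φ
  apply hk k φ'
  rw [hρE, irredVia_mapRep, hφ']
  exact hφ

end complex

end Pool.Agent.H14.GI
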