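import Pool.Agent.H14.GI.Closed

/-!
MP_adb684_al: two values outside the diagonal.
-/

set_option autoImplicit false

open Matrix NumberField

namespace Pool.Agent.H14.GI

section arith
variable {F : Type} [Field F]

theorem integral_of_quadratic (s : F) (α β : ℤ) (h : s ^ 2 = (β : F) * s + (α : F)) :
    ∃ e : 𝓞 F, algebraMap (𝓞 F) F e = s := by
  have h1 : IsIntegral ℤ s := by
    refine ⟨Polynomial.X ^ 2 + (Polynomial.C (-β) * Polynomial.X + Polynomial.C (-α)),
      Polynomial.monic_X_pow_add Polynomial.degree_linear_lt, ?_⟩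
    simp only [Polynomial.eval₂_add, Polynomial.eval₂_mul, Polynomial.eval₂_pow,
      Polynomial.eval₂_X, Polynomial.eval₂_C]
    rw [h]
    simp only [map_neg, eq_intCast]
    ring
  exact ⟨⟨s, h1⟩, rfl⟩

end arith

/-- The combinatorial core: a matrix of zeros and ones in the algebra spanned by `1`, itself and
the all one matrix; bounds for the second eigenvalue. -/
theorem eig_bound {X : Type} [Fintype X] [DecidableEq X] (a : X → X → ℤ)
    (ha : ∀ x y, a x y = 0 ∨ a x y = 1) (haa : ∀ x, a x x = 0) (k : ℤ)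
    (hrow : ∀ x, ∑ y, a x y = k) (hcol : ∀ y, ∑ x, a x y = k) (s α β γ : ℂ)
    (hs : s ^ 2 = β * s + α)
    (hsq : ∀ x z, ∑ y, (a x y : ℂ) * (a y z : ℂ) =
      α * (if x = z then 1 else 0) + β * (a x z : ℂ) + γ)
    (x₀ y₁ y₂ : X) (h1 : x₀ ≠ y₁) (h2 : x₀ ≠ y₂) (ha1 : a x₀ y₁ = 1) (ha2 : a x₀ y₂ = 0) :
    ‖s‖ ≤ k ∧ ‖1 + s‖ ≤ (Fintype.card X : ℝ) - 1 - k := by
  set f : X → ℂ := fun x => ((a x y₁ : ℂ) - (a x y₂ : ℂ)) -
    (β - s) * ((if x = y₁ then 1 else 0) - (if x = y₂ then 1 else 0)) with hf
  have hf0 : f x₀ ≠ 0 := by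
    simp only [hf, ha1, ha2, if_neg h1, if_neg h2]
    norm_num
  have hmul : ∀ x, ∑ y, (a x y : ℂ) * f y = s * f x := by
    intro x
    have e1 : ∀ z : X, ∑ y, (a x y : ℂ) * (if y = z then (1 : ℂ) else 0) = a x z := by
      intro z
      rw [Finset.sum_eq_single z]
      · simp
      · intro y _ hy; simp [hy]
      · intro h; exact absurd (Finset.mem_univ _) h
    have e2 : ∑ y, (a x y : ℂ) * f y = (∑ y, (a x y : ℂ) * (a y y₁ : ℂ) -
        ∑ y, (a x y : ℂ) * (a y y₂ : ℂ)) - (β - s) *
        (∑ y, (a x y : ℂ) * (if y = y₁ then (1 : ℂ) else 0) -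
          ∑ y, (a x y : ℂ) * (if y = y₂ then (1 : ℂ) else 0)) := by
      rw [← Finset.sum_sub_distrib, ← Finset.sum_sub_distrib, Finset.mul_sum,
        ← Finset.sum_sub_distrib]
      refine Finset.sum_congr rfl fun y _ => ?_
      simp only [hf]
      ring
    rw [e2, hsq, hsq, e1, e1]
    simp only [hf]
    have e3 : α = s ^ 2 - β * s := by rw [hs]; ring
    rw [e3]
    ring
  have hsum : ∑ x, f x = 0 := by
    simp only [hf, Finset.sum_sub_distrib, ← Finset.mul_sum]
    have e1 : ∀ z : X, ∑ x, (a x z : ℂ) = k := by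
      intro z
      rw [← hcol z]
      push_cast
      rfl
    rw [e1, e1]
    simp
  constructor
  · apply row_bound (fun x y => (a x y : ℝ)) _ (k : ℝ) _ f ⟨x₀, hf0⟩ s
    · intro x
      rw [← hmul x]
      refine Finset.sum_congr rfl fun y _ => ?_
      simp
    · intro x y
      rcases ha x y with h | h <;> rw [h] <;> norm_num
    · intro x
      rw [← hrow x]
      push_cast
      rfl
  · rw [← norm_neg]
    apply row_bound (fun x y => (if x = y then (0 : ℝ) else 1) - (a x y : ℝ)) _ _ _ f ⟨x₀, hf0⟩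
    · intro x
      have e1 : ∑ y, (((if x = y then (0 : ℝ) else 1) - (a x y : ℝ) : ℝ) : ℂ) * f y =
          ∑ y, f y - ∑ y, (if x = y then f y else 0) - ∑ y, (a x y : ℂ) * f y := by
        rw [← Finset.sum_sub_distrib, ← Finset.sum_sub_distrib]
        refine Finset.sum_congr rfl fun y _ => ?_
        by_cases h : x = y
        · simp only [if_pos h]; push_cast; ring
        · simp only [if_neg h]; push_cast; ring
      rw [e1, hsum, hmul, Finset.sum_ite_eq, if_pos (Finset.mem_univ _)]
      ring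
    · intro x y
      by_cases h : x = y
      · subst h
        rw [if_pos rfl, haa]
        norm_num
      · rw [if_neg h]
        rcases ha x y with h | h <;> rw [h] <;> norm_num
    · intro x
      rw [Finset.sum_sub_distrib]
      have e1 : ∑ y, (if x = y then (0 : ℝ) else 1) = (Fintype.card X : ℝ) - 1 := by
        have e2 : ∀ y : X, (if x = y then (0 : ℝ) else 1) = 1 - (if x = y then 1 else 0) := by
          intro y; by_cases h : x = y <;> simp [h]
        rw [Finset.sum_congr rfl (fun y _ => e2 y), Finset.sum_sub_distrib, Finset.sum_ite_eq,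
          if_pos (Finset.mem_univ _)]
        simp
      have e3 : ∑ y, (a x y : ℝ) = k := by
        rw [← hrow x]
        push_cast
        rfl
      rw [e1, e3]

section
variable {G : Type} [Group G] {F : Type} [Field F] [NumberField F] {n : ℕ} {X : Type}
  [MulAction G X] [MulAction.IsPretransitive G X] [Fintype X]

/-- two values outside the diagonal -/
theorem two_values (ρ : G →* Matrix (Fin n) (Fin n) (𝓞 F)) (σ : F →+* ℂ)
    (hρ : IrredVia (σ.comp (algebraMap (𝓞 F) F)) ρ) (hn : 2 ≤ n)
    (v w : X → Fin n → F) (hS : Sys (mapRep (algebraMap (𝓞 F) F) ρ) v w (fun _ _ => 1))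
    (x₀ : X) (hv0 : ∃ x, v x ≠ 0) (hw0 : ∃ x, w x ≠ 0) (c1 c2 : F)
    (hc : ∀ x y, x ≠ y → w x ⬝ᵥ v y = c1 ∨ w x ⬝ᵥ v y = c2)
    (hirr : ∀ q : ℕ, q.Prime → q ∣ Fintype.card X →
      ∃ (k : Type) (_ : Field k) (_ : CharP k q) (φ : 𝓞 F →+* k), IrredVia φ ρ) : False := by
  classical
  have hP : Irr (mapRep σ (mapRep (algebraMap (𝓞 F) F) ρ)) := hρ
  -- cases in which there is only one value
  by_cases h1 : ∃ x y, x ≠ y ∧ w x ⬝ᵥ v y = c1
  swap
  · refine closed_case ρ σ hρ hn v w hS x₀ hv0 hw0 c2 (fun x y hxy => Or.inl ?_) hirr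
    rcases hc x y hxy with h | h
    · exact absurd ⟨x, y, hxy, h⟩ h1
    · exact h
  by_cases h2 : ∃ x y, x ≠ y ∧ w x ⬝ᵥ v y = c2
  swap
  · refine closed_case ρ σ hρ hn v w hS x₀ hv0 hw0 c1 (fun x y hxy => Or.inl ?_) hirr
    rcases hc x y hxy with h | h
    · exact h
    · exact absurd ⟨x, y, hxy, h⟩ h2
  by_cases h12 : c1 = c2
  · refine closed_case ρ σ hρ hn v w hS x₀ hv0 hw0 c1 (fun x y hxy => Or.inl ?_) hirr
    rcases hc x y hxy with h | h
    · exact h
    · rw [h12]; exact h
  have hd : c1 - c2 ≠ 0 := sub_ne_zero.2 h12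
  have hinv : ∀ (g : G) (x y : X), w (g • x) ⬝ᵥ v (g • y) = w x ⬝ᵥ v y := by
    intro g x y
    have := hS.inv g x y
    simpa using this
  have hdiag : ∀ x, w x ⬝ᵥ v x = w x₀ ⬝ᵥ v x₀ := fun x => hS.diag x x₀
  obtain ⟨y₁, hy₁, hM₁⟩ : ∃ y₁, x₀ ≠ y₁ ∧ w x₀ ⬝ᵥ v y₁ = c1 := by
    obtain ⟨x, y, hxy, h⟩ := h1
    obtain ⟨g, rfl⟩ := MulAction.exists_smul_eq G x x₀
    exact ⟨g • y, fun h => hxy (smul_left_cancel g h), by rw [hinv, h]⟩
  obtain ⟨y₂, hy₂, hM₂⟩ : ∃ y₂, x₀ ≠ y₂ ∧ w x₀ ⬝ᵥ v y₂ = c2 := by
    obtain ⟨x, y, hxy, h⟩ := h2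
    obtain ⟨g, rfl⟩ := MulAction.exists_smul_eq G x x₀
    exact ⟨g • y, fun h => hxy (smul_left_cancel g h), by rw [hinv, h]⟩
  -- the matrix of zeros and ones
  let a : X → X → ℤ := fun x y => if x ≠ y ∧ w x ⬝ᵥ v y = c1 then 1 else 0
  have ha : ∀ x y, a x y = 0 ∨ a x y = 1 := by
    intro x y
    by_cases h : x ≠ y ∧ w x ⬝ᵥ v y = c1
    · right; exact if_pos h
    · left; exact if_neg h
  have haa : ∀ x, a x x = 0 := fun x => if_neg (fun h => h.1 rfl)
  have ha1 : a x₀ y₁ = 1 := if_pos ⟨hy₁, hM₁⟩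
  have ha2 : a x₀ y₂ = 0 := if_neg (fun h => h12 (by rw [← h.2, hM₂]))
  have hainv : ∀ (g : G) (x y : X), a (g • x) (g • y) = a x y := by
    intro g x y
    simp only [a, hinv, ne_eq, smul_left_cancel_iff]
  obtain ⟨k, hrow⟩ : ∃ k : ℤ, ∀ x, ∑ y, a x y = k := by
    refine ⟨∑ y, a x₀ y, fun x => ?_⟩
    obtain ⟨g, rfl⟩ := MulAction.exists_smul_eq G x₀ x
    rw [← Equiv.sum_comp (MulAction.toPerm g)]
    refine Finset.sum_congr rfl fun y _ => ?_
    rw [MulAction.toPerm_apply, hainv]
  have hm0 : (Fintype.card X : ℤ) ≠ 0 := by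
    have : Nonempty X := ⟨x₀⟩
    exact_mod_cast Fintype.card_ne_zero
  have hcol : ∀ y, ∑ x, a x y = k := by
    have h3 : ∀ y, ∑ x, a x y = ∑ x, a x x₀ := by
      intro y
      obtain ⟨g, rfl⟩ := MulAction.exists_smul_eq G x₀ y
      rw [← Equiv.sum_comp (MulAction.toPerm g)]
      refine Finset.sum_congr rfl fun x _ => ?_
      rw [MulAction.toPerm_apply, hainv]
    have h4 : ∑ x, ∑ y, a x y = ∑ y, ∑ x, a x y := Finset.sum_comm
    rw [Finset.sum_congr rfl (fun x _ => hrow x), Finset.sum_congr rfl (fun y _ => h3 y),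
      Finset.sum_const, Finset.sum_const, nsmul_eq_mul, nsmul_eq_mul, Finset.card_univ] at h4
    intro y
    rw [h3 y]
    exact (mul_left_cancel₀ hm0 h4).symm
  -- the entries
  set s : F := -((w x₀ ⬝ᵥ v x₀) - c2) / (c1 - c2) with hsdef
  set b : F := c2 / (c1 - c2) with hbdef
  have hM : ∀ x y, w x ⬝ᵥ v y =
      (c1 - c2) * (-s * (if x = y then 1 else 0) + (a x y : F) + b) := by
    intro x y
    by_cases hxy : x = y
    · subst hxy
      rw [if_pos rfl, haa, hdiag, hsdef, hbdef]
      field_simp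
      push_cast
      ring
    · rw [if_neg hxy]
      rcases hc x y hxy with h | h
      · have : a x y = 1 := if_pos ⟨hxy, h⟩
        rw [this, h, hbdef]
        field_simp
        push_cast
        ring
      · have : a x y = 0 := if_neg (fun h' => h12 (by rw [← h'.2, h]))
        rw [this, h, hbdef]
        field_simp
        push_cast
        ring
  have hδ1 : ∀ x : X, ∑ y, (if x = y then (1 : F) else 0) = 1 := by
    intro x; rw [Finset.sum_ite_eq, if_pos (Finset.mem_univ _)]
  have haF : ∀ x, ∑ y, (a x y : F) = (k : F) := by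
    intro x; rw [← hrow x]; push_cast; rfl
  have hcF : ∀ y, ∑ x, (a x y : F) = (k : F) := by
    intro y; rw [← hcol y]; push_cast; rfl
  have hrel : -s + (k : F) + (Fintype.card X : F) * b = 0 := by
    have h3 := hS.row_sum σ hP hn
    have h4 : w x₀ ⬝ᵥ (∑ y, v y) = 0 := by rw [h3, dotProduct_zero]
    rw [dotProduct_sum, Finset.sum_congr rfl (fun y _ => hM x₀ y), ← Finset.mul_sum,
      Finset.sum_add_distrib, Finset.sum_add_distrib, ← Finset.mul_sum, hδ1, haF,
      Finset.sum_const, nsmul_eq_mul, Finset.card_univ, mul_one] at h4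
    exact (mul_eq_zero.1 h4).resolve_left hd
  -- the square
  obtain ⟨c, hsq, htr, -⟩ := hS.square σ hP hn
  set c' : F := c / (c1 - c2) with hc'def
  have hc' : c = (c1 - c2) * c' := by
    rw [hc'def]; field_simp
  have hab : ∀ x z, ∑ y, (a x y : F) * (a y z : F) =
      (-(c' * s) - s ^ 2) * (if x = z then 1 else 0) + (c' + 2 * s) * (a x z : F) +
        b * (c' + s - k) := by
    intro x z
    have h3 := hsq x z
    rw [hc', hM x z] at h3
    have h4 : ∑ y, (w x ⬝ᵥ v y) * (w y ⬝ᵥ v z) = (c1 - c2) ^ 2 *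
        (∑ y, (-s * (if x = y then 1 else 0) + (a x y : F) + b) *
          (-s * (if y = z then 1 else 0) + (a y z : F) + b)) := by
      rw [Finset.mul_sum]
      refine Finset.sum_congr rfl fun y _ => ?_
      rw [hM x y, hM y z]
      ring
    rw [h4] at h3
    have h5 : ∑ y, (-s * (if x = y then 1 else 0) + (a x y : F) + b) *
          (-s * (if y = z then 1 else 0) + (a y z : F) + b) =
        c' * (-s * (if x = z then 1 else 0) + (a x z : F) + b) := by
      have h6 : (c1 - c2) ^ 2 ≠ 0 := pow_ne_zero 2 hd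
      apply mul_left_cancel₀ h6
      rw [h3]
      ring
    have h7 : ∑ y, (-s * (if x = y then 1 else 0) + (a x y : F) + b) *
          (-s * (if y = z then 1 else 0) + (a y z : F) + b) =
        ∑ y, (a x y : F) * (a y z : F) + s ^ 2 * (if x = z then 1 else 0) - 2 * s * (a x z : F)
          + b * (-2 * s + 2 * k + Fintype.card X * b) := by
      have e1 : ∀ y, (-s * (if x = y then 1 else 0) + (a x y : F) + b) *
          (-s * (if y = z then 1 else 0) + (a y z : F) + b) =
          (a x y : F) * (a y z : F) +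
          (s ^ 2 * (if x = y then (if y = z then 1 else 0) else 0)
          + -s * (if x = y then (a y z : F) else 0) + -s * (if y = z then (a x y : F) else 0)
          + b * (-s * (if x = y then 1 else 0)) + b * (-s * (if y = z then 1 else 0))
          + b * (a x y : F) + b * (a y z : F) + b * b) := by
        intro y
        by_cases h8 : x = y
        · by_cases h9 : y = z
          · simp only [if_pos h8, if_pos h9]; ring
          · simp only [if_pos h8, if_neg h9]; ring
        · by_cases h9 : y = z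
          · simp only [if_neg h8, if_pos h9]; ring
          · simp only [if_neg h8, if_neg h9]; ring
      rw [Finset.sum_congr rfl (fun y _ => e1 y)]
      simp only [Finset.sum_add_distrib, ← Finset.mul_sum, Finset.sum_ite_eq,
        Finset.sum_ite_eq', Finset.mem_univ, if_true, haF, hcF, Finset.sum_const, nsmul_eq_mul,
        Finset.card_univ]
      ring
    rw [h7] at h5
    have h8 : (Fintype.card X : F) * b = s - k := by linear_combination hrel
    rw [h8] at h5
    linear_combination h5
  -- the coefficients are integers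
  set α : F := -(c' * s) - s ^ 2 with hα
  set β : F := c' + 2 * s with hβ
  set γ : F := b * (c' + s - k) with hγ
  have hint : ∀ x z, ∑ y, (a x y : F) * (a y z : F) = ((∑ y, a x y * a y z : ℤ) : F) := by
    intro x z
    push_cast
    rfl
  have hγ' : γ = ((∑ y, a x₀ y * a y y₂ : ℤ) : F) := by
    rw [← hint, hab, if_neg hy₂, ha2]
    push_cast
    ring
  have hβ' : β = ((∑ y, a x₀ y * a y y₁ - ∑ y, a x₀ y * a y y₂ : ℤ) : F) := by
    rw [Int.cast_sub, ← hint, ← hint, hab, hab, if_neg hy₁, if_neg hy₂, ha1, ha2]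
    push_cast
    ring
  have hα' : α = ((∑ y, a x₀ y * a y x₀ - ∑ y, a x₀ y * a y y₂ : ℤ) : F) := by
    rw [Int.cast_sub, ← hint, ← hint, hab, hab, if_pos rfl, if_neg hy₂, ha2, haa]
    push_cast
    ring
  have hquad : s ^ 2 = β * s + α := by
    rw [hα, hβ]; ring
  obtain ⟨αi, hαi⟩ : ∃ z : ℤ, α = (z : F) := ⟨_, hα'⟩
  obtain ⟨βi, hβi⟩ : ∃ z : ℤ, β = (z : F) := ⟨_, hβ'⟩
  obtain ⟨s', hs'⟩ := integral_of_quadratic s αi βi (by rw [← hβi, ← hαi]; exact hquad)
  -- the bounds
  have hbound : ∀ τ : F →+* ℂ, ‖τ s‖ ≤ k ∧ ‖1 + τ s‖ ≤ (Fintype.card X : ℝ) - 1 - k := by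
    intro τ
    refine eig_bound a ha haa k hrow hcol (τ s) (τ α) (τ β) (τ γ) ?_ ?_ x₀ y₁ y₂ hy₁ hy₂ ha1 ha2
    · rw [← map_pow, hquad, map_add, map_mul]
    · intro x z
      have h3 := congrArg τ (hab x z)
      simp only [map_sum, map_mul, map_add, map_intCast] at h3
      rw [h3]
      by_cases hxz : x = z
      · simp only [if_pos hxz, map_one]
      · simp only [if_neg hxz, map_zero]
  have hk0 : (0 : ℝ) ≤ k := (norm_nonneg _).trans (hbound σ).1
  have hk1 : (0 : ℝ) ≤ (Fintype.card X : ℝ) - 1 - k := (norm_nonneg _).trans (hbound σ).2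
  have hmF : (Fintype.card X : F) ≠ 0 := by
    have : Nonempty X := ⟨x₀⟩
    exact_mod_cast Fintype.card_ne_zero
  have hmb : (Fintype.card X : F) * b = s - k := by linear_combination hrel
  have hS' : Sys (mapRep (algebraMap (𝓞 F) F) ρ) v w
      (fun g x => algebraMap (𝓞 F) F ((fun _ _ => 1 : G → X → 𝓞 F) g x)) := by
    simpa using hS
  -- the trace relation
  have htrace : s * (2 * (n : F) + 1 - (Fintype.card X : F)) = (n : F) * β + k := by
    have h3 : (n : F) * c = (Fintype.card X : F) * ((c1 - c2) * (-s + b)) := by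
      rw [htr]
      have e1 : ∀ x, w x ⬝ᵥ v x = (c1 - c2) * (-s + b) := by
        intro x
        rw [hM x x, if_pos rfl, haa]
        push_cast
        ring
      rw [Finset.sum_congr rfl (fun x _ => e1 x), Finset.sum_const, nsmul_eq_mul,
        Finset.card_univ]
    have h4 : (n : F) * c' = (Fintype.card X : F) * (-s + b) := by
      apply mul_left_cancel₀ hd
      rw [hc'] at h3
      linear_combination h3
    have h5 : c' = β - 2 * s := by rw [hβ]; ring
    rw [h5] at h4
    linear_combination -h4 - hmb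
  -- `(card X) ^ 2 * b * (b + 1)` is an integer
  obtain ⟨N, hN⟩ : ∃ N : ℤ, (Fintype.card X : F) ^ 2 * (b * (b + 1)) = (N : F) := by
    by_cases hmn : (2 * (n : ℤ) + 1 - (Fintype.card X : ℤ)) = 0
    · have hmnF : (2 * (n : F) + 1 - (Fintype.card X : F)) = 0 := by exact_mod_cast hmn
      rw [hmnF, mul_zero, hβi] at htrace
      have h3 : (n : ℤ) * βi + k = 0 := by exact_mod_cast htrace.symm
      have hkpos : 0 < k := by
        have h4 : (1 : ℤ) ≤ ∑ y, a x₀ y := by
          rw [← ha1]
          apply Finset.single_le_sum (f := fun y => a x₀ y) (fun y _ => ?_) (Finset.mem_univ y₁)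
          rcases ha x₀ y with h | h <;> simp only [h] <;> norm_num
        rw [hrow] at h4
        omega
      have hklt : k < 2 * n := by
        have h4 : ∑ y, a x₀ y ≤ ∑ y : X, (if y = x₀ then 0 else if y = y₂ then 0 else (1 : ℤ)) := by
          apply Finset.sum_le_sum
          intro y _
          by_cases h5 : y = x₀
          · rw [if_pos h5, h5, haa]
          · rw [if_neg h5]
            by_cases h6 : y = y₂
            · rw [if_pos h6, h6, ha2]
            · rw [if_neg h6]
              rcases ha x₀ y with h | h <;> rw [h] <;> norm_num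
        have h5 : ∑ y : X, (if y = x₀ then 0 else if y = y₂ then 0 else (1 : ℤ)) =
            (Fintype.card X : ℤ) - 2 := by
          have h6 : ∀ y : X, (if y = x₀ then 0 else if y = y₂ then 0 else (1 : ℤ)) =
              1 - (if y = x₀ then 1 else 0) - (if y = y₂ then 1 else 0) := by
            intro y
            by_cases h7 : y = x₀
            · have h8 : y ≠ y₂ := fun h => hy₂ (h7.symm.trans h)
              simp [h7, hy₂]
            · by_cases h8 : y = y₂
              · simp [h8, hy₂.symm]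
              · simp [h7, h8]
          rw [Finset.sum_congr rfl (fun y _ => h6 y), Finset.sum_sub_distrib,
            Finset.sum_sub_distrib, Finset.sum_ite_eq', Finset.sum_ite_eq',
            if_pos (Finset.mem_univ _), if_pos (Finset.mem_univ _)]
          simp
          ring
        rw [hrow, h5] at h4
        omega
      have hβ1 : βi = -1 := by
        have hnp : (0 : ℤ) < n := by exact_mod_cast (by omega : 0 < n)
        have h4 : (n : ℤ) * βi < 0 := by omega
        have h5 : βi < 0 := by
          by_contra h6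
          push Not at h6
          have := mul_nonneg hnp.le h6
          omega
        have h6 : -2 < βi := by
          by_contra h7
          push Not at h7
          have : (n : ℤ) * βi ≤ n * (-2) := mul_le_mul_of_nonneg_left h7 hnp.le
          omega
        omega
      refine ⟨αi - n ^ 2 - n, ?_⟩
      have hk : (k : F) = n := by
        have : k = n := by rw [hβ1] at h3; linarith
        rw [this]; push_cast; rfl
      have hmF' : (Fintype.card X : F) = 2 * n + 1 := by linear_combination -hmnF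
      have hquad' : s ^ 2 = -s + (αi : F) := by
        rw [hquad, hβi, hαi, hβ1]; push_cast; ring
      push_cast
      rw [hk] at hmb
      calc (Fintype.card X : F) ^ 2 * (b * (b + 1)) =
          ((Fintype.card X : F) * b) * ((Fintype.card X : F) * b + (Fintype.card X : F)) := by ring
        _ = (s - n) * (s - n + (2 * n + 1)) := by rw [hmb, hmF']
        _ = _ := by linear_combination hquad'
    · -- `s` is rational, hence an integer
      obtain ⟨si, hsi⟩ : ∃ z : ℤ, s = (z : F) := by
        have hne : ((2 * (n : ℤ) + 1 - (Fintype.card X : ℤ) : ℤ) : F) ≠ 0 := by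
          exact_mod_cast hmn
        have h3 : s = algebraMap ℚ F (((n : ℚ) * βi + k) / (2 * (n : ℤ) + 1 - (Fintype.card X : ℤ) : ℤ)) := by
          rw [map_div₀]
          rw [eq_div_iff (by
            rw [eq_ratCast, Rat.cast_intCast]
            exact hne)]
          rw [hβi] at htrace
          simp only [eq_ratCast, Rat.cast_intCast, Rat.cast_add, Rat.cast_mul, Rat.cast_natCast]
          rw [← htrace]
          push_cast
          ring
        have h4 : IsIntegral ℤ s := by rw [← hs']; exact RingOfIntegers.isIntegral_coe _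
        rw [h3] at h4
        have h5 := (isIntegral_algebraMap_iff (algebraMap ℚ F).injective).1 h4
        obtain ⟨z, hz⟩ := IsIntegrallyClosed.isIntegral_iff.1 h5
        refine ⟨z, ?_⟩
        rw [h3, ← hz]
        simp
      refine ⟨(si - k) * (si - k + Fintype.card X), ?_⟩
      push_cast
      rw [← hsi, ← hmb]
      ring
  -- `b * (b + 1)` is an integer
  obtain ⟨z, hz⟩ : ∃ z : ℤ, b * (b + 1) = (z : F) := by
    set r : ℚ := (N : ℚ) / (Fintype.card X : ℚ) ^ 2 with hr
    have hmQ : (Fintype.card X : ℚ) ≠ 0 := by exact_mod_cast hm0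
    have hrF : b * (b + 1) = (r : F) := by
      rw [hr]
      push_cast
      rw [eq_div_iff (pow_ne_zero 2 hmF), ← hN]
      ring
    have hden : r.den = 1 := by
      by_contra hden
      obtain ⟨q, hq, hqd⟩ := Nat.exists_prime_and_dvd hden
      have hqm : q ∣ Fintype.card X := by
        have h3 : (r.den : ℤ) ∣ (Fintype.card X : ℤ) ^ 2 := by
          have h4 := Rat.den_dvd N ((Fintype.card X : ℤ) ^ 2)
          have h5 : (N : ℚ) / (((Fintype.card X : ℤ) ^ 2 : ℤ) : ℚ) = r := by
            rw [hr]; push_cast; rfl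
          rw [← h5, ← Rat.divInt_eq_div]
          exact h4
        have h4 : q ∣ Fintype.card X ^ 2 := by
          have : r.den ∣ Fintype.card X ^ 2 := by exact_mod_cast h3
          exact hqd.trans this
        exact hq.dvd_of_dvd_pow h4
      obtain ⟨L, hL, hLq, φ, hI⟩ := hirr q hq hqm
      obtain ⟨κ, M', v₁, w₁, hκ, hM', hvw, hS₁, hv₁, hw₁⟩ :=
        exists_reduction φ ρ v w (fun _ _ => 1) hS' hv0 hw0
      have hD : φ (M' x₀ y₁ - M' x₀ y₂) ≠ 0 := by
        intro hD
        have hS₂ : Sys (mapRep φ ρ) v₁ w₁ (fun _ _ => 1) := by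
          simpa using hS₁
        have hI' : Irr (mapRep φ ρ) := hI
        have hred : ∀ x y, w₁ x ⬝ᵥ v₁ y = φ (M' x₀ y₂) := by
          intro x y
          rw [hvw]
          have h3 : M' x y = (M' x₀ y₁ - M' x₀ y₂) *
              (-s' * (if x = y then 1 else 0) + (a x y : 𝓞 F)) + M' x₀ y₂ := by
            apply alg_inj
            rw [map_add, map_mul, map_sub, map_add, map_mul, map_neg, hM', hM', hM', hs', hM₁, hM₂,
              hM x y, map_intCast, apply_ite (algebraMap (𝓞 F) F), map_one, map_zero, hbdef]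
            field_simp
          rw [h3, map_add, map_mul, hD, zero_mul, zero_add]
        obtain ⟨y, hy⟩ := hv₁
        exact hy (hS₂.const hI' hn x₀ hw₁ (v₁ y) _ (fun x => hred x y)).1
      have h3 : (M' x₀ y₁ - M' x₀ y₂) ^ 2 * (r.num : 𝓞 F) =
          (r.den : 𝓞 F) * (M' x₀ y₁ * M' x₀ y₂) := by
        apply alg_inj
        have h4 : algebraMap (𝓞 F) F (M' x₀ y₁ - M' x₀ y₂) = κ * (c1 - c2) := by
          rw [map_sub, hM', hM', hM₁, hM₂]; ring
        have h5 : (r.num : F) = (r.den : F) * (b * (b + 1)) := by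
          rw [hrF]
          have h6 := Rat.den_mul_eq_num r
          have h7 : ((r.den * r : ℚ) : F) = (r.num : ℚ) := by rw [h6]
          push_cast at h7
          exact h7.symm
        rw [map_mul, map_pow, map_mul, map_mul, h4, hM', hM', hM₁, hM₂, map_intCast,
          map_natCast, h5, hbdef]
        field_simp
        ring
      have h4 := congrArg φ h3
      have h5 : (r.den : L) = 0 := (CharP.cast_eq_zero_iff L q r.den).2 hqd
      rw [map_mul, map_pow, map_mul, map_natCast, h5, zero_mul, map_intCast] at h4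
      have h6 : (r.num : L) = 0 := (mul_eq_zero.1 h4).resolve_left (pow_ne_zero 2 hD)
      have h7 : (q : ℤ) ∣ r.num := (CharP.intCast_eq_zero_iff L q r.num).1 h6
      have h8 : q ∣ r.num.natAbs := Int.natCast_dvd.1 h7
      have h9 : q ∣ 1 := by
        have := Nat.dvd_gcd h8 hqd
        rwa [r.reduced.gcd_eq_one] at this
      exact hq.one_lt.ne' (Nat.dvd_one.1 h9)
    refine ⟨r.num, ?_⟩
    rw [hrF]
    have h3 : (r.num : ℚ) = r := by
      have := Rat.den_mul_eq_num r
      rw [hden] at this
      simpa using this.symm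
    conv_lhs => rw [← h3]
    push_cast
    rfl
  -- `b (b + 1)` is small, hence zero
  have hzero : b * (b + 1) = 0 := by
    rw [hz]
    have hsmall : ‖σ (b * (b + 1))‖ < 1 → ((z : ℤ) : F) = 0 := by
      intro h
      rw [hz, map_intCast, Complex.norm_intCast] at h
      have h4 : |z| < 1 := by exact_mod_cast h
      rw [Int.abs_lt_one_iff.1 h4, Int.cast_zero]
    apply hsmall
    set τ := σ with hτ
    rw [map_mul, map_add, map_one]
    have h3 := hbound τ
    have hm1 : (0 : ℝ) < Fintype.card X := by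
      have : Nonempty X := ⟨x₀⟩
      exact_mod_cast Fintype.card_pos
    have e1 : (Fintype.card X : ℂ) * τ b = τ s - k := by
      have := congrArg τ hmb
      simpa using this
    have e2 : (Fintype.card X : ℂ) * (τ b + 1) = (1 + τ s) + ((Fintype.card X : ℂ) - 1 - k) := by
      linear_combination e1
    have n1 : (Fintype.card X : ℝ) * ‖τ b‖ ≤ 2 * k := by
      calc (Fintype.card X : ℝ) * ‖τ b‖ = ‖(Fintype.card X : ℂ) * τ b‖ := by
            rw [norm_mul, Complex.norm_natCast]
        _ = ‖τ s - k‖ := by rw [e1]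
        _ ≤ ‖τ s‖ + ‖(k : ℂ)‖ := norm_sub_le _ _
        _ ≤ k + k := by
            apply add_le_add h3.1
            rw [Complex.norm_intCast, abs_of_nonneg hk0]
        _ = 2 * k := by ring
    have n2 : (Fintype.card X : ℝ) * ‖τ b + 1‖ ≤ 2 * ((Fintype.card X : ℝ) - 1 - k) := by
      calc (Fintype.card X : ℝ) * ‖τ b + 1‖ = ‖(Fintype.card X : ℂ) * (τ b + 1)‖ := by
            rw [norm_mul, Complex.norm_natCast]
        _ = ‖(1 + τ s) + ((Fintype.card X : ℂ) - 1 - k)‖ := by rw [e2]
        _ ≤ ‖1 + τ s‖ + ‖(Fintype.card X : ℂ) - 1 - k‖ := norm_add_le _ _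
        _ ≤ ((Fintype.card X : ℝ) - 1 - k) + ((Fintype.card X : ℝ) - 1 - k) := by
            apply add_le_add h3.2
            have e3 : (Fintype.card X : ℂ) - 1 - k = (((Fintype.card X : ℝ) - 1 - k : ℝ) : ℂ) := by
              push_cast; ring
            rw [e3, Complex.norm_real, Real.norm_of_nonneg hk1]
        _ = 2 * ((Fintype.card X : ℝ) - 1 - k) := by ring
    rw [norm_mul]
    by_contra hcon
    push Not at hcon
    have n3 : (Fintype.card X : ℝ) ^ 2 ≤
        ((Fintype.card X : ℝ) * ‖τ b‖) * ((Fintype.card X : ℝ) * ‖τ b + 1‖) := by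
      calc (Fintype.card X : ℝ) ^ 2 = (Fintype.card X : ℝ) ^ 2 * 1 := by ring
        _ ≤ (Fintype.card X : ℝ) ^ 2 * (‖τ b‖ * ‖τ b + 1‖) :=
            mul_le_mul_of_nonneg_left hcon (by positivity)
        _ = _ := by ring
    have n4 : ((Fintype.card X : ℝ) * ‖τ b‖) * ((Fintype.card X : ℝ) * ‖τ b + 1‖) ≤
        (2 * k) * (2 * ((Fintype.card X : ℝ) - 1 - k)) :=
      mul_le_mul n1 n2 (by positivity) (by linarith)
    nlinarith [sq_nonneg ((Fintype.card X : ℝ) - 1 - 2 * k)]
  rcases mul_eq_zero.1 hzero with h | h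
  · have hc2 : c2 = 0 := by
      rw [hbdef, div_eq_zero_iff] at h
      exact h.resolve_right hd
    refine closed_case ρ σ hρ hn v w hS x₀ hv0 hw0 c1 (fun x y hxy => ?_) hirr
    rw [← hc2]
    exact hc x y hxy
  · have hc1 : c1 = 0 := by
      rw [hbdef] at h
      field_simp at h
      linear_combination h
    refine closed_case ρ σ hρ hn v w hS x₀ hv0 hw0 c2 (fun x y hxy => ?_) hirr
    rw [← hc1]
    exact (hc x y hxy).symm

end

end Pool.Agent.H14.GI
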